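import Pool.Agent.Lib.MP_436e1a_gt.E.Lam
import Pool.Agent.Lib.MP_436e1a_gt.D.Conn
import Pool.Agent.Lib.MP_436e1a_gt.A.Null

/-! Hyperbolic pairs of a simply connected summand lift to every covering of the sum. -/

open Set

namespace Pool.Agent.CSP

/-- a ball for a torsion sphere that misses a point -/
theorem easy_ball {c : Ctx} {a : E 3 → c.Y} (ha : Tors a) {z : E c.N} (h : ∀ x ∈ S2, c.am a x ≠ z) :
    ∃ D, ContinuousOn D B3 ∧ (∀ x ∈ S2, D x = a (dd x)) ∧ ∀ x ∈ B3, c.am D x ≠ z := by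
  obtain ⟨D₀, hD₀, eD₀⟩ := ha.2
  obtain ⟨G, g1, -, g3, g4, -⟩ := Ctx.avoid (isCompact_closedBall (0 : E 3) 1)
    (Metric.isClosed_sphere (x := (0 : E 3)) (ε := 1)) hD₀ (ι := Unit) (k := fun _ => 3)
    (l := fun _ => 0) (T := fun _ => univ) (fun _ => thin_of_finrank (by simp) _)
    (fun _ => thin_singleton z) (fun _ => by norm_num) one_pos
  have h11 : (1 : ℝ) ∈ Icc (0 : ℝ) 1 := right_mem_Icc.2 zero_le_one
  have eD : ∀ x ∈ S2, G (1, x) = a (dd x) := fun x hx =>
    ((g3 1 h11 x (Metric.sphere_subset_closedBall hx)).1 hx).trans (eD₀ x hx)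
  refine ⟨fun x => G (1, x), g1.comp (continuous_const.prodMk continuous_id).continuousOn
    fun x hx => ⟨h11, hx⟩, eD, fun x hx => ?_⟩
  by_cases hs : x ∈ S2
  · simp only [Ctx.am, eD x hs]
    exact h _ (dd_mem (ne_zero_of_S2 hs))
  · exact g4 () x hx (mem_univ _) hs

/-- Sketch. Let `p = i 0`. Move `e false` off `p` to a sphere with thin image, then `e true` off this
image and off `p` (`avoid_S2`, `thin_singleton`, `Thin.of_le`, `Thin.union`); choose balls `D s` for them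
and move them off `p` relative to `S2` (`avoid`, `3 + 0 ≤ 4`). `sc_compl` and `lift_sc` lift
`a : {p}ᶜ → X` to `B : P → c.Y`, a `LocMap`. The spheres `B ∘ a s` are torsion with balls `B ∘ D s`. For
`g ≠ 1` a coincidence `B x = g • B y` gives `x = y` and `g = 1`; `inter_empty`. For `g = 1` use `inter_nat`
with one piece and `N = univ`. `lam_eq`, `lk_eq`. -/
theorem easy {P Y : Mfd} [SimplyConnectedSpace P] (A : Amb P) {e : Bool → E 3 → P}
    (H : (Ctx.triv P A).Hyp e) {c : Ctx} (h : IsSum P Y c.M) : ∃ e', c.Hyp e' := by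
  obtain ⟨i, j, a, b, -, -, ha, -⟩ := h
  have hp : Thin 2 {A.ι (i 0)} := (thin_singleton _).of_le (by norm_num)
  obtain ⟨a₀, c0, H0, t0, o0⟩ := Ctx.avoid_S2 (c := Ctx.triv P A) (H.tors false).1 hp
  obtain ⟨a₁, c1, H1, -, o1⟩ := Ctx.avoid_S2 (c := Ctx.triv P A) (H.tors true).1 (t0.union hp)
  let u : Bool → E 3 → P := fun s => match s with | false => a₀ | true => a₁
  have hu : ∀ s, Tors (u s) := by
    rintro (_ | _)
    exacts [(H.tors false).htp H0, (H.tors true).htp H1]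
  have ou : ∀ s, ∀ x ∈ S2, (Ctx.triv P A).am (u s) x ≠ A.ι (i 0) := by
    rintro (_ | _) x hx
    exacts [o0 x hx, fun e => o1 x hx (Or.inr e)]
  have hdj : Dj a₀ a₁ := fun x hx y hy e => o1 y hy (Or.inl ⟨x, hx, congrArg A.ι e⟩)
  choose D hD eD oD using fun s => easy_ball (c := Ctx.triv P A) (hu s) (ou s)
  have mu : ∀ s, MapsTo (u s) S2 {i 0}ᶜ := fun s x hx e => ou s x hx (congrArg A.ι e)
  have mD : ∀ s, MapsTo (D s) B3 {i 0}ᶜ := fun s x hx e => oD s x hx (congrArg A.ι e)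
  have := sc_compl A (Z := {i 0}) (by rwa [image_singleton])
  have := ChartedSpace.locallyPathConnectedSpace (E 5) P
  obtain ⟨y₀, hy⟩ := c.surjective_q (a (a₀ npole))
  obtain ⟨B, hB, -, eB⟩ := c.lift_sc isOpen_compl_singleton ha.continuousOn
    (mu false npole_mem) hy
  have key : ∀ x ∈ ({i 0}ᶜ : Set P), ∀ y ∈ ({i 0}ᶜ : Set P), ∀ g : c.G, B x = g • B y →
      x = y ∧ g = 1 := fun x hx y hy g e => by
    have e1 : x = y := ha.2.1 hx hy (by rw [← eB x hx, ← eB y hy, e, c.q_smul])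
    exact ⟨e1, c.smul_eq_self (e1 ▸ e).symm⟩
  have cD : ∀ s, ContinuousOn (fun x => B (D s x)) B3 := fun s => hB.comp (hD s) (mD s)
  have eD' : ∀ s, ∀ x ∈ S2, B (D s x) = B (u s (dd x)) := fun s x hx => congrArg B (eD s x hx)
  have tu : ∀ s, Tors fun x => B (u s x) := fun s => ⟨hB.comp (hu s).1 (mu s), _, cD s, eD' s⟩
  refine ⟨fun s x => B (u s x), tu, fun s t g hg => ?_, ?_⟩
  · have tg := (tu t).map (c.continuous_smul g)
    have dj : Dj (fun x => B (u s x)) fun y => g • B (u t y) := fun x hx y hy e =>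
      hg (key _ (mu s hx) _ (mu t hy) g e).2
    have em : ∀ x ∈ B3, ∀ y ∈ S2, B (D s x) ≠ g • B (u t y) := fun x hx y hy e =>
      hg (key _ (mD s hx) _ (mu t hy) g e).2
    rw [Ctx.lam_eq (tu s) tg (HtpOn.refl (tu s).1) (HtpOn.refl tg.1) dj,
      Ctx.lk_eq (tu s) tg dj (cD s) (eD' s), Ctx.inter_empty ⟨cD s, tg.1, fun x hx =>
        em x (Metric.sphere_subset_closedBall hx)⟩ em, Int.cast_zero]
  · have inj : InjOn B {i 0}ᶜ := fun x hx y hy e => (key x hx y hy 1 (by rw [e, one_smul])).1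
    have dj : Dj (fun x => B (u false x)) fun y => B (u true y) := fun x hx y hy e =>
      hdj x hx y hy (inj (mu false hx) (mu true hy) e)
    have bs : BS (D false) a₁ := ⟨hD false, c1, fun x hx y hy e =>
      hdj _ (dd_mem (ne_zero_of_S2 hx)) y hy ((eD false x hx).symm.trans e)⟩
    have L : LocMap (Ctx.triv P A) c B a {i 0}ᶜ := ⟨isOpen_compl_singleton, ha, inj, eB⟩
    rw [Ctx.lam_eq (tu false) (tu true) (HtpOn.refl (tu false).1) (HtpOn.refl (tu true).1) dj,
      Ctx.lk_eq (tu false) (tu true) dj (cD false) (eD' false), ← H.one,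
      Ctx.lam_eq (H.tors _) (H.tors _) H0 H1 hdj,
      Ctx.lk_eq (c := Ctx.triv P A) (hu false) (hu true) hdj (hD false) (eD false),
      inter_nat (κ := Unit) Finset.univ (c' := fun _ => Ctx.triv P A) (fun _ _ => L)
        (D' := fun _ => D false) (b' := fun _ => a₁) ⟨cD false, (tu true).1, fun x hx y hy e =>
          dj _ (dd_mem (ne_zero_of_S2 hx)) y hy ((eD' false x hx).symm.trans e)⟩ (fun _ _ => bs)
        (N := fun _ => univ) (fun _ _ => isOpen_univ) (fun _ _ _ _ _ _ _ _ _ _ => rfl)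
        (fun _ _ _ _ _ => ⟨(), Finset.mem_univ _, mem_univ _⟩) (fun _ _ _ _ _ _ _ => mem_univ _)
        fun _ _ x hx y hy _ => ⟨mD false hx, mu true hy, rfl, rfl⟩]
    simp [u]

/-- Sketch. `φ ∘ e false` is a map of `S2` to `E 6 ∖ 0`; `ext_ball`, normalise (`nrm`), apply `φ.symm`:
`e false` bounds a ball, so `lam_null` (`htp_const_of_ball`) contradicts `Hyp.one`. -/
theorem nonunit {X : Mfd} (A : Amb X) {e : Bool → E 3 → X} (H : (Ctx.triv X A).Hyp e) :
    IsEmpty (X ≃ₜ Metric.sphere (0 : E 6) 1) := by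
  classical
  refine ⟨fun φ => ?_⟩
  have hn : ∀ x, ‖(φ x : E 6)‖ = 1 := fun x => mem_sphere_zero_iff_norm.1 (φ x).2
  obtain ⟨D, hD, eD, oD⟩ := ext_ball (W := E 6) (by simp) (a := fun x => φ (e false x))
    ((continuous_subtype_val.comp φ.continuous).comp_continuousOn (H.tors false).1)
    fun x _ h => by simpa [h] using hn (e false x)
  let n : E 6 → Metric.sphere (0 : E 6) 1 := fun v =>
    if h : v ≠ 0 then ⟨nrm v, mem_sphere_zero_iff_norm.2 (norm_nrm h)⟩ else φ (e false 0)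
  have en : ∀ v, v ≠ 0 → (n v : E 6) = nrm v := fun v h => by simp only [n, dif_pos h]
  have cn : ContinuousOn n {0}ᶜ := Topology.IsInducing.subtypeVal.continuousOn_iff.2
    (contDiffOn_nrm.continuousOn.congr en)
  have cD : ContinuousOn (fun x => φ.symm (n (D x))) B3 :=
    φ.symm.continuous.comp_continuousOn (cn.comp hD.continuousOn oD)
  have h0 := Ctx.lam_null (c := Ctx.triv X A) ((HtpOn.of_eq (H.tors false).1 fun x hx => by
    refine φ.eq_symm_apply.2 (Subtype.ext ?_)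
    rw [en _ (oD x (Metric.sphere_subset_closedBall hx)), eD hx, nrm_of_norm (hn _)]).trans
      (htp_const_of_ball cD)) (H.tors true)
  exact absurd (H.one.symm.trans h0) (by decide)

end Pool.Agent.CSP
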