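import Pool.Agent.Lib.MP_436e1a_gt.I.Sat
import Pool.Agent.Lib.MP_436e1a_gt.I.Fr2
import Pool.Agent.Lib.MP_436e1a_gt.J.SurgDef

/-! An equivalence that fixes the cores descends to the surgered manifold. -/

open scoped Topology
open Set

namespace Pool.Agent.CSP

/-- Sketch. Let `φ` be the equivalence; `φ ∘ h` is a framed link with the cores of `h` (`FL.aut`). `fr2`
with `C = q '' (s' '' S2)` gives `χ` with `χ (φ (h i v)) = h i v` near `Sc` that fixes `s'`. Apply
`Surg.induced` to the diffeomorphism `χ.dn ∘ φ.dn`. -/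
theorem trf {ι : Type} [Finite ι] {c : Ctx} {M' : Mfd} {h : ι → E 5 → c.Y} {k : ι → E 5 → M'}
    {θ : c.M → M'} {θ' : M' → c.M} (hh : c.FL h) (H : Surg (fun i v => c.q (h i v)) k θ θ')
    {s s' : E 3 → c.Y} (hs' : ContinuousOn s' S2)
    (hd : ∀ x ∈ S2, c.q (s' x) ∉ cores fun i v => c.q (h i v))
    (e : c.Eqv (tri h s) (tri h s')) :
    ∃ ψ : M' → M', Emb 1 ψ univ ∧ Function.Surjective ψ ∧
      (∀ i, ∀ᶠ v in 𝓝ˢ Sc, ψ (k i v) = k i v) ∧ ∀ x ∈ S2, ψ (θ (c.q (s x))) = θ (c.q (s' x)) := by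
  obtain ⟨φ, hφ⟩ := e
  have e1 : ∀ i, ∀ v ∈ Sc, h i v = φ.up (h i v) := by
    rintro i _ ⟨u, hu, rfl⟩
    exact (hφ (some i) u hu).symm
  obtain ⟨χ, h1, h2⟩ := Ctx.fr2 (hh.aut φ) hh e1 (((isCompact_sphere (0 : E 3) 1).image_of_continuousOn
    (c.continuous_q.comp_continuousOn hs')).isClosed) (by
      rintro i v hv ⟨x, hx, e⟩
      exact hd x hx (mem_iUnion.2 ⟨i, v, hv, (congrArg c.q (e1 i v hv)).trans e.symm⟩))
  obtain ⟨ω, hω, -⟩ := φ.exists_trans χ
  have e2 : ∀ i, ∀ᶠ v in 𝓝ˢ Sc, ω.dn (c.q (h i v)) = c.q (h i v) := fun i =>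
    (h1 i).mono fun v hv => by rw [← ω.comm, hω, hv]
  have e3 : ∀ x ∈ S2, ω.dn (c.q (s x)) = c.q (s' x) := fun x hx => by
    rw [← ω.comm, hω, show φ.up (s x) = s' x from hφ none x hx, h2 _ ⟨x, hx, rfl⟩]
  obtain ⟨ψ, k1, k2, k3, k4⟩ := H.induced ω.emb ω.surj e2
  refine ⟨ψ, k1, k2, k3, fun x hx => (k4 _ fun hm => ?_).trans (congrArg θ (e3 x hx))⟩
  obtain ⟨i, v, hv, e⟩ := mem_iUnion.1 hm
  exact hd x hx (mem_iUnion.2 ⟨i, v, hv, by
    rw [← e3 x hx, ← e]; exact ((e2 i).self_of_nhdsSet v hv).symm⟩)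

/-- the standard framed link in `E 5` -/
noncomputable def std (s : Bool) (v : E 5) : E 5 := if s then Lam 1 v else v

theorem continuous_std (s : Bool) : Continuous (std s) := by
  cases s
  exacts [continuous_id, (contDiff_Lam.comp (contDiff_const.prodMk contDiff_id)).continuous]

/-- `W` = a thin open tube on which `Lam 1` and the identity have disjoint images (`kap_not_mem`,
`sep_nhds` or compactness) -/
theorem flm_std {M : Mfd} {j : E 5 → M} (hj : Emb 1 j univ) : FLM fun s v => j (std s v) := by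
  obtain ⟨U, V, hU, hV, h1, h2, h3⟩ := normal_separation isCompact_Sc.isClosed
    (isCompact_Sc.image (continuous_std true)).isClosed (disjoint_left.2 (by
      rintro _ hv ⟨_, ⟨u, hu, rfl⟩, rfl⟩
      exact kap_not_mem one_ne_zero hu (Lam_inc 1 u ▸ hv)))
  refine ⟨U ∩ std true ⁻¹' V, hU.inter (hV.preimage (continuous_std true)),
    fun v hv => ⟨h1 hv, h2 ⟨v, hv, rfl⟩⟩, fun s => Emb.mono ?_ (subset_univ _), ?_⟩
  · cases s
    · exact hj
    · have := hj.comp (emb_of_contDiffOn (s := 1) (f := Lam 1)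
        (contDiff_Lam.comp (contDiff_const.prodMk contDiff_id)).contDiffOn
        (Lam_inj one_ne_zero).injOn fun v _ => by rw [one_mul]; exact det_Lam one_pos v)
        isOpen_univ isOpen_univ (mapsTo_univ _ _)
      rwa [mul_one] at this
  · rintro (_ | _) (_ | _) v hv w hw e
    · rfl
    · exact (disjoint_left.1 h3 hv.1 (mem_of_eq_of_mem (hj.2.1 (mem_univ _) (mem_univ _) e) hw.2)).elim
    · exact (disjoint_left.1 h3 hw.1
        (mem_of_eq_of_mem (hj.2.1 (mem_univ _) (mem_univ _) e.symm) hv.2)).elim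
    · rfl

theorem trf_triv {M : Mfd} (A : Amb M) {j : E 5 → M} {W : Set (E 5)} (hW : IsOpen W)
    (hj : Emb 1 j W) : (Ctx.triv M A).SmOn j W ∧
      ∀ v ∈ W, (Ctx.triv M A).Sgn (j v) (fderiv ℝ ((Ctx.triv M A).am j) v) 1 := by
  have h1 : (Ctx.triv M A).SmOn j W := smOn_triv_comp A hj contDiffOn_id (mapsTo_id W)
  refine ⟨h1, fun v hv => (Ctx.sgn_iff_jac (c := Ctx.triv M A) (Ctx.SmNear.differentiableAt
    ⟨W, hW, subset_rfl, h1⟩ hv)).2 ?_⟩
  have := hj.2.2 v hv
  rw [one_mul] at this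
  rw [Units.val_one, Int.cast_one, one_mul]
  exact this

theorem trf_inc {u v : E 3} (e : fderiv ℝ inc u v = 0) : v = 0 := by
  rw [← norm_eq_zero, ← norm_inc, ← fderiv_inc u]
  exact norm_eq_zero.2 e

/-- a pair of spheres as a family -/
def pair {Y : Type} (a b : E 3 → Y) : Bool → E 3 → Y
  | false => a
  | true => b

/-- in a disc all the links `(core, kap ε)` are isotopic (`smOn_triv_comp`, `Iso.eqv`, `sat_kap`) -/
theorem eqv_kap {M : Mfd} (A : Amb M) {j : E 5 → M} (hj : Emb 1 j univ) {ε ε' : ℝ} (h : 0 < ε)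
    (h' : 0 < ε') : (Ctx.triv M A).Eqv (pair (fun u => j (inc u)) fun u => j (kap ε u))
      (pair (fun u => j (inc u)) fun u => j (kap ε' u)) := by
  have hτ : ∀ t ∈ Icc (0 : ℝ) 1, 0 < (1 - t) * ε + t * ε' := fun t ht =>
    convex_Ioi (𝕜 := ℝ) (0 : ℝ) h h' (sub_nonneg.2 ht.2) ht.1 (sub_add_cancel _ _)
  have := (Ctx.iso_of_nhds (c := Ctx.triv M A) (h := fun _ : Unit => j) isOpen_univ
    (fun _ => (trf_triv A isOpen_univ hj).1) (fun _ => (trf_triv A isOpen_univ hj).2)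
    (fun _ _ _ hv _ hw e => ⟨rfl, hj.2.1 hv hw e⟩) (fun _ : Bool => ()) (ψ := fun k p => match k with
      | false => inc p.2
      | true => kap ((1 - p.1) * ε + p.1 * ε') p.2) ?_ (fun _ _ _ _ _ => mem_univ _) ?_ ?_).eqv
  · refine (Ctx.Eqv.of_eq ?_).trans (this.trans (Ctx.Eqv.of_eq ?_))
    all_goals rintro (_ | _) x _ <;> simp [sl, pair] <;> rfl
  · rintro (_ | _)
    · exact (contDiff_inc.comp contDiff_snd).contDiffOn
    · exact (contDiff_kap.comp (f := fun p : ℝ × E 3 => ((1 - p.1) * ε + p.1 * ε', p.2))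
        (by fun_prop)).contDiffOn
  · rintro (_ | _) t ht u hu v hv e
    exacts [trf_inc e, sat_kap.imm _ (hτ t ht) u hu v hv e]
  · rintro t ht (_ | _) (_ | _) x hx y hy - e
    · exact ⟨rfl, by rw [← pr3_inc x, show inc x = inc y from e, pr3_inc]⟩
    · exact (sat_kap.off _ (hτ t ht) y hy (mem_of_eq_of_mem e.symm (inc_mem_Sc.2 hx))).elim
    · exact (sat_kap.off _ (hτ t ht) x hx (mem_of_eq_of_mem e (inc_mem_Sc.2 hy))).elim
    · exact ⟨rfl, sat_kap.inj _ (hτ t ht) hx hy e⟩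

/-- a parallel copy of component `l` is isotopic to it in the complement of component `i ≠ l`:
the family `k l (par ((1 - t) ε) (rfb b u))` -/
theorem eqv_par {ι : Type} {M : Mfd} (A : Amb M) {k : ι → E 5 → M} (hk : FLM k) {i l : ι}
    (hil : i ≠ l) (b : Bool) : ∀ᶠ ε in 𝓝[>] (0 : ℝ),
    (Ctx.triv M A).Eqv (pair (core k i) fun u => k l (par ε (rfb b u)))
      (pair (core k i) fun u => core k l (rfb b u)) := by
  obtain ⟨W, hW, hS, hk, hd⟩ := hk
  obtain ⟨δ, hδ, hm⟩ := (sat_par.rfb b).eventually (hW.mem_nhdsSet.2 hS)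
  filter_upwards [Ioo_mem_nhdsGT hδ] with ε hε
  have := (Ctx.iso_of_nhds (c := Ctx.triv M A) (h := k) hW
    (fun i => (trf_triv A hW (hk i)).1) (fun i => (trf_triv A hW (hk i)).2)
    (fun i j v hv w hw e => by
      obtain rfl := hd i j v hv w hw e
      exact ⟨rfl, (hk i).2.1 hv hw e⟩) (fun s : Bool => if s then l else i)
    (ψ := fun s p => match s with
      | false => inc p.2
      | true => par ((1 - p.1) * ε) (rfb b p.2)) ?_ ?_ ?_ ?_).eqv
  · refine (Ctx.Eqv.of_eq ?_).trans (this.trans (Ctx.Eqv.of_eq ?_))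
    all_goals rintro (_ | _) x _ <;> simp [sl, pair, core, par, tube_zero] <;> rfl
  · rintro (_ | _)
    · exact (contDiff_inc.comp contDiff_snd).contDiffOn
    · exact (sat_par.rfb b).sm.comp (f := fun p : ℝ × E 3 => ((1 - p.1) * ε, p.2)) (by fun_prop)
        fun p hp => ⟨mem_univ _, hp.2⟩
  · rintro (_ | _) t ht u hu
    · exact hS (inc_mem_Sc.2 hu)
    · refine hm _ ?_ u hu
      rw [abs_of_nonneg (mul_nonneg (sub_nonneg.2 ht.2) hε.1.le)]
      nlinarith [ht.1, hε.1, hε.2]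
  · rintro (_ | _) t ht u hu v hv e
    · exact trf_inc e
    · exact tl_imm (g := fun w => rfb b (nrm (pr3 w))) hu
        (Sat.diff (φ := fun ε u => par ε (rfb b u)) (sat_par.rfb b).sm ((1 - t) * ε)
          (ne_zero_of_S2 hu))
        (((contDiff_rfb b).differentiable (by simp) _).comp _ ((lnk_diff_nrm
          (pr3_tube_ne (sat_S2 b hu) _)).comp _ (contDiff_pr3.differentiable (by simp) _)))
        (fun x hx => by simp only [par, nrm_pr3_tube (sat_S2 b hx), rfb_rfb]) hv e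
  · rintro t ht (_ | _) (_ | _) x hx y hy e' e
    · exact ⟨rfl, by rw [← pr3_inc x, show inc x = inc y from e, pr3_inc]⟩
    · exact (hil e').elim
    · exact (hil e'.symm).elim
    · exact ⟨rfl, by rw [← rfb_rfb b x, (tube_inj (sat_S2 b hx) (sat_S2 b hy) e).1, rfb_rfb]⟩

end Pool.Agent.CSP
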