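import Pool.Agent.Lib.MP_436e1a_gt.K.ParStep
import Pool.Agent.Lib.MP_436e1a_gt.K.Trf
import Pool.Agent.Lib.MP_436e1a_gt.J.SurgEx
import Pool.Agent.Lib.MP_436e1a_gt.J.Asm

/-! A hyperbolic pair splits off the standard summand. -/

open scoped Topology
open Set

namespace Pool.Agent.CSP

theorem Emb.comp1 {M N P : Type} [TopologicalSpace M] [ChartedSpace (E 5) M] [TopologicalSpace N]
    [ChartedSpace (E 5) N] [TopologicalSpace P] [ChartedSpace (E 5) P]
    [IsManifold (modelWithCornersSelf ℝ (E 5)) (⊤ : ℕ∞) M]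
    [IsManifold (modelWithCornersSelf ℝ (E 5)) (⊤ : ℕ∞) N]
    [IsManifold (modelWithCornersSelf ℝ (E 5)) (⊤ : ℕ∞) P] {f : M → N} {g : N → P} {W : Set M}
    {V : Set N} (hg : Emb 1 g V) (hf : Emb 1 f W) (hV : IsOpen V) (hW : IsOpen W)
    (hm : MapsTo f W V) : Emb 1 (fun x => g (f x)) W := by
  have := hg.comp hf hV hW hm
  rwa [mul_one] at this

theorem fin_S2 (b : Bool) : MapsTo (rfb b) S2 S2 := fun x hx =>
  mem_sphere_zero_iff_norm.2 ((norm_rfb b x).trans (mem_sphere_zero_iff_norm.1 hx))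

theorem fin_rf5b (b : Bool) : Emb 1 (rf5b b) univ ∧ ∀ v, ‖rf5b b v‖ = ‖v‖ := by
  cases b
  · exact ⟨emb_id _, fun _ => rfl⟩
  · refine ⟨emb_of_contDiffOn (f := rf5) contDiff_rf5.contDiffOn
      (Function.LeftInverse.injective rf5_rf5).injOn fun v _ => by rw [det_rf5]; norm_num, fun v => ?_⟩
    simp [rf5b, rf5, EuclideanSpace.norm_eq, Fin.sum_univ_five]

/-- the dual link: each component is the sphere `kap` around the other.
Sketch. `trf` for `cab h i ε`, `mrd h i ε`, `Surg.eventually`, `exists_aut_triv`, `eqv_par`. -/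
theorem dual_eqv {c : Ctx} {M' : Mfd} (A : Amb M') {h : Bool → E 5 → c.Y} {k : Bool → E 5 → M'}
    {θ : c.M → M'} {θ' : M' → c.M} (hh : c.FL h) (H : Surg (fun i v => c.q (h i v)) k θ θ')
    {i : Bool} (e : ∀ᶠ ε in 𝓝[>] (0 : ℝ), c.Eqv (Ctx.cab h i ε) (Ctx.mrd h i ε)) :
    ∀ᶠ ε in 𝓝[>] (0 : ℝ), (Ctx.triv M' A).Eqv (pair (core k i) fun u => k i (kap ε u))
      (pair (core k i) fun u => core k (!i) (rfb (bs i) u)) := by
  filter_upwards [e, H.eventually, hh.link_tri (sat_mer.rfb (bs i)) (!i),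
    eqv_par A H.fk (i := i) (l := !i) (by simp) (bs i)] with ε e hs L e'
  obtain ⟨ψ, h1, h2, h3, h4⟩ := trf hh H (L.continuousOn none)
    (fun x hx => (hs (!i) _ (fin_S2 _ hx)).2.2.2.2.2.2.1) e
  obtain ⟨φ, hφ⟩ := exists_aut_triv A h1 h2
  refine Ctx.Eqv.trans ⟨φ, ?_⟩ e'
  rintro (_ | _) x hx
  · exact (hφ _).trans ((h3 i).self_of_nhdsSet _ (inc_mem_Sc.2 hx))
  · exact (hφ _).trans ((congrArg ψ (hs i x hx).1.symm).trans ((h4 x hx).trans
      (hs (!i) _ (fin_S2 _ hx)).2.2.1))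

/-- A sphere equivalent to some `kap ε` is the standard sphere of a disc.
Sketch. For small `ε`, `Lam ε` maps the ball of radius 2 into the domain `W` of `k i`
(`Lam ε v = tube _ (ε • _)`, `exists_tube_subset`). `j = φ ∘ k i ∘ Lam ε ∘ rf5b b ∘ ν` with `ν` from
`exists_compress` (`R = 1`, `R' = 2`); `rf5b b` preserves the norm and has determinant `1`. -/
theorem exists_disc {M : Mfd} (A : Amb M) {k : Bool → E 5 → M} (hk : FLM k) {i : Bool} {b : Bool}
    {a : E 3 → M} (e : ∀ᶠ ε in 𝓝[>] (0 : ℝ), ∃ φ : (Ctx.triv M A).Aut, ∀ u ∈ S2,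
      φ.up (k i (kap ε u)) = a (rfb b u)) :
    ∃ j : E 5 → M, Emb 1 j univ ∧ ∀ u ∈ S2, j (inc u) = a u := by
  obtain ⟨W, hW, hS, hk, -⟩ := hk
  have h1 : ∀ᶠ ε in 𝓝 (0 : ℝ), ∀ v ∈ Metric.closedBall (0 : E 5) 2, Lam ε v ∈ W :=
    (isCompact_closedBall _ _).eventually_forall_of_forall_eventually fun v _ =>
      contDiff_Lam.continuous.continuousAt.preimage_mem_nhds (hW.mem_nhds (hS (by
        simp only [Lam, zero_smul, tube_zero]
        exact inc_mem_Sc.2 (gn_mem _))))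
  obtain ⟨ε, ⟨φ, hφ⟩, h2, hε⟩ := (e.and ((h1.filter_mono nhdsWithin_le_nhds).and
    self_mem_nhdsWithin)).exists
  have hε : 0 < ε := hε
  obtain ⟨ν, n1, n2, n3, n4, n5⟩ := exists_compress one_pos one_lt_two
  have e1 : Emb 1 (Lam ε) univ := emb_of_contDiffOn
    (contDiff_Lam.comp (contDiff_const.prodMk contDiff_id)).contDiffOn (Lam_inj hε.ne').injOn
    fun v _ => by rw [one_mul]; exact det_Lam hε v
  have e2 : Emb 1 ν univ := emb_of_contDiffOn n1.contDiffOn n2.injOn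
    fun v _ => by rw [one_mul]; exact n3 v
  refine ⟨_, φ.emb.comp1 ((hk i).comp1 (e1.comp1 ((fin_rf5b b).1.comp1 e2 isOpen_univ isOpen_univ
    (mapsTo_univ _ _)) isOpen_univ isOpen_univ (mapsTo_univ _ _)) hW isOpen_univ fun v _ =>
      h2 _ (mem_closedBall_zero_iff.2 (((fin_rf5b b).2 _).trans_le (n4 v).le))) isOpen_univ
      isOpen_univ (mapsTo_univ _ _), fun u hu => ?_⟩
  have := hφ _ (fin_S2 b hu)
  rw [rfb_rfb] at this
  rw [n5 _ ((norm_inc u).trans (mem_sphere_zero_iff_norm.1 hu)).le, rf5b_inc, Lam_inc]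
  exact (φ.comm _).symm.trans this

/-- The dual framed link is standard. Sketch. `exists_disc` (from the hypothesis for `true`) gives `j`
with core `core k false`. `fr2` for the single framed spheres `k false` and `j` (index `Unit`, `C = ∅`) gives
`ψ₁`, so `(core k false, k false ∘ kap ε)` is equivalent to `(j ∘ inc, j ∘ kap ε)` for small `ε`
(`Sat.eventually`), and to `(j ∘ inc, j ∘ kap 1)` by `eqv_kap`. With the hypothesis for `false`, some `φ` maps
the cores of `k' s = k s ∘ rf5b (b s)`, `b false = false`, `b true = bs false`, to the cores of `j ∘ std s`.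
`fr2` once more (`FLM.rf`, `FLM.fl`, `FL.aut`, `flm_std`). -/
theorem dual_std {M : Mfd} (A : Amb M) {k : Bool → E 5 → M} (hk : FLM k)
    (e : ∀ i, ∀ᶠ ε in 𝓝[>] (0 : ℝ), (Ctx.triv M A).Eqv (pair (core k i) fun u => k i (kap ε u))
      (pair (core k i) fun u => core k (!i) (rfb (bs i) u))) :
    ∃ (j : E 5 → M) (φ : M → M) (b : Bool → Bool), Emb 1 j univ ∧ Emb 1 φ univ ∧
      Function.Surjective φ ∧ ∀ s, ∀ᶠ v in 𝓝ˢ Sc, j (std s v) = φ (k s (rf5b (b s) v)) := by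
  obtain ⟨j, hj, ej⟩ := exists_disc A hk (i := true) (b := bs true) (a := core k false)
    ((e true).mono fun ε ⟨φ, hφ⟩ => ⟨φ, hφ true⟩)
  have h0 : FLM fun _ : Unit => j :=
    ⟨univ, isOpen_univ, subset_univ _, fun _ => hj, fun _ _ _ _ _ _ _ => rfl⟩
  obtain ⟨ψ, hψ, -⟩ := Ctx.fr2 ((hk.fl A).comp (e := fun _ : Unit => false) fun _ _ _ => rfl)
    (h0.fl A) (by rintro _ _ ⟨u, hu, rfl⟩; exact ej u hu) isClosed_empty fun _ _ _ => id
  obtain ⟨δ, hδ, hs⟩ := sat_kap.eventually (hψ ())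
  obtain ⟨ε, E1, hε⟩ := ((e false).and (Ioo_mem_nhdsGT hδ)).exists
  have hε : ε ∈ Ioo 0 δ := hε
  have E2 : (Ctx.triv M A).Eqv (pair (core k false) fun u => k false (kap ε u))
      (pair (fun u => j (inc u)) fun u => j (kap ε u)) := ⟨ψ, by
    rintro (_ | _) u hu
    exacts [(hψ ()).self_of_nhdsSet _ (inc_mem_Sc.2 hu), hs ε (by rw [abs_of_pos hε.1]; exact hε.2) u hu]⟩
  obtain ⟨φ, hφ⟩ := E1.symm.trans (E2.trans (eqv_kap A hj hε.1 one_pos))
  let b : Bool → Bool := fun s => if s then bs false else false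
  obtain ⟨χ, hχ, -⟩ := Ctx.fr2 (((hk.rf b).fl A).aut φ) ((flm_std hj).fl A) (by
    rintro (_ | _) _ ⟨u, hu, rfl⟩
    · exact (hφ false u hu).symm
    · beta_reduce
      rw [rf5b_inc]
      exact (congrArg j (Lam_inc 1 u)).trans (hφ true u hu).symm) isClosed_empty fun _ _ _ => id
  obtain ⟨ω, hω, -⟩ := φ.exists_trans χ
  exact ⟨j, ω.dn, b, hj, ω.emb, ω.surj, fun s => (hχ s).mono fun v hv =>
    hv.symm.trans ((hω _).symm.trans (ω.comm _))⟩

/-- Sketch. `Hyp.exists_std`, `FL.flm`, `exists_surg`, `exists_amb`, `dual_eqv`, `dual_std`; then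
`Surg.symm`, `Surg.rf`, `Surg.map`, `Surg.congr` give a surgery on `j ∘ std` with result `c.M`; `asm`. -/
theorem hard {S P : Mfd} {σ i₀ : E 5 → S} (hS : IsSph S σ i₀) {kP : Bool → E 5 → P} {θP : S → P}
    {θP' : P → S} (hP : Surg (fun s v => σ (std s v)) kP θP θP') {c : Ctx}
    [SimplyConnectedSpace c.Y] {e : Bool → E 3 → c.Y} (H : c.Hyp e) : ∃ M', IsSum P M' c.M := by
  obtain ⟨h, hh, he⟩ := H.exists_std
  obtain ⟨M', k, θ, θ', HS⟩ := exists_surg hh.flm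
  obtain ⟨A⟩ := exists_amb M'
  obtain ⟨j, φ, b, hj, h1, h2, h3⟩ := dual_std A HS.fk fun i => dual_eqv A hh HS (he i)
  obtain ⟨θ₁, θ₁', S1⟩ := (HS.symm.rf b).map h1 h2
  exact ⟨M', asm hS (fun i => (continuous_std i).continuousOn) hP hj (S1.congr h3)⟩

end Pool.Agent.CSP
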