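import Pool.Agent.Lib.MP_436e1a_gt.I.Sat
import Pool.Agent.Lib.MP_436e1a_gt.I.Push
import Pool.Agent.Lib.MP_436e1a_gt.E.LkStep
import Pool.Agent.Lib.MP_436e1a_gt.H.Iface

/-! Chains that move only the third sphere. -/

open Set

namespace Pool.Agent.CSP

theorem chi_swap {ι G : Type} [Group G] (l : List (Dat ι G)) (i j : ι) (g : G) :
    chi l j i g⁻¹ = - chi l i j g := by
  induction l with
  | nil => simp [chi]
  | cons δ l ih =>
    rw [chi_cons, chi_cons δ l i, ih]
    have e : ∀ g' : G, δ.g = g'⁻¹⁻¹ ↔ δ.g = g' := fun g' => by rw [inv_inv]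
    have : chi [δ] j i g⁻¹ = - chi [δ] i j g := by
      simp only [chi, List.map_cons, List.map_nil, List.sum_cons, List.sum_nil, add_zero, neg_sub]
      congr 1
      by_cases h : δ.i = i ∧ δ.j = j ∧ δ.g = g
      · rw [if_pos h, if_pos (by rwa [e])]
      · rw [if_neg h, if_neg (by rwa [e])]
    rw [this]
    ring

namespace Ctx

variable {c : Ctx} {ι : Type} [Finite ι] {h : ι → E 5 → c.Y} {s s' : E 3 → c.Y}

omit [Finite ι] in
theorem zs_empty {f : ℝ × E 3 → c.Y} (hf : ∀ t ∈ Icc (0 : ℝ) 1, ∀ x ∈ S2, ∀ y ∈ S2,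
    c.q (f (t, x)) = c.q (f (t, y)) → x = y) (g : c.G) : c.Zs f g = ∅ :=
  eq_empty_of_forall_notMem fun p hp => hp.2.2.2.1
    (hf _ hp.1 _ hp.2.1 _ hp.2.2.1 (by rw [hp.2.2.2.2, c.q_smul]))

omit [Finite ι] in
theorem nd_of_empty {f : ℝ × E 3 → c.Y} {g : c.G} (h : c.Zs f g = ∅) : c.Nd f g :=
  ⟨h ▸ finite_empty, fun p hp => (h ▸ hp : p ∈ (∅ : Set _)).elim⟩

/-- homotopic third spheres are joined by a chain without self-crossings of the cores -/
theorem tri_chain (L0 : c.Link (tri h s)) (L1 : c.Link (tri h s')) (H : HtpOn S2 s s') :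
    ∃ l, c.Chain (tri h s) l (tri h s') ∧ ∀ i (g : c.G), g = g⁻¹ → cnt l (some i) g = 0 := by
  obtain ⟨f, hf, ef⟩ := fam_of_htp (L0.sm none) (L1.sm none) H
  let F : Option ι → ℝ × E 3 → c.Y := fun k => match k with
    | none => f
    | some j => fun p => core h j p.2
  have hF : c.Fam F := by
    rintro (_ | j)
    exacts [hf, (L0.sm (some j)).const _]
  have e0 : ∀ k, ∀ x ∈ S2, sl F 0 k x = tri h s k x := by
    rintro (_ | j) x hx
    exacts [(ef x hx).1, rfl]
  have e1 : ∀ k, ∀ x ∈ S2, sl F 1 k x = tri h s' k x := by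
    rintro (_ | j) x hx
    exacts [(ef x hx).2, rfl]
  obtain ⟨l, hl, hc⟩ := if_gp hF
    (L0.congr (fun k => (hF k).slice (left_mem_Icc.2 zero_le_one)) e0)
    (L1.congr (fun k => (hF k).slice (right_mem_Icc.2 zero_le_one)) e1)
  refine ⟨l, (Chain.eqv_left (Eqv.of_eq fun k x hx => (e0 k x hx).symm) hl).eqv_right
    (Eqv.of_eq e1), fun i g hg => ?_⟩
  have z := zs_empty (f := F (some i))
    (fun _ _ x hx y hy e => (L0.inj (some i) (some i) x hx y hy e).2) g
  have := hc (some i) g hg (fun _ _ => L0.imm (some i)) (nd_of_empty z)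
  rw [z, ncard_empty] at this
  omega

/-- equal linking numbers and even parities give an equivalence -/
theorem tri_eqv [SimplyConnectedSpace c.Y] {l : List (Dat (Option ι) c.G)}
    (hc : c.Chain (tri h s) l (tri h s')) (hL : c.TL (tri h s))
    (h1 : ∀ k (g : c.G), c.lk (core h k) (fun y => g • s' y) = c.lk (core h k) fun y => g • s y)
    (h2 : ∀ g : c.G, g ≠ 1 → c.lk s' (fun y => g • s' y) = c.lk s fun y => g • s y)
    (h3 : ∀ i (g : c.G), g = g⁻¹ → Even (cnt l i g)) : c.Eqv (tri h s) (tri h s') := by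
  have key := (hc.lk hL).2
  have k1 : ∀ k g, chi l (some k) none g = 0 := fun k g => by
    have := key (some k) none g (by simp)
    simp only [tri, h1] at this
    omega
  refine if_thmU hc (fun i j g hne => ?_) h3
  have hne' : ¬ (i = j ∧ g = 1) := fun e => hne ⟨e.1, by rw [e.2, inv_one]⟩
  have := key i j g hne'
  rcases i with _ | i <;> rcases j with _ | j
  · simp only [tri, h2 g fun e => hne' ⟨rfl, e⟩] at this
    omega
  · rw [← inv_inv g, chi_swap, k1, neg_zero]
  · exact k1 _ _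
  · simp only [tri] at this
    omega

end Ctx

end Pool.Agent.CSP
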