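import Pool.Agent.Lib.MP_436e1a_gt.K.Trf
import Pool.Agent.Lib.MP_436e1a_gt.K.TriCh
import Pool.Agent.Lib.MP_436e1a_gt.I.SatLk
import Pool.Agent.Lib.MP_436e1a_gt.I.Push
import Pool.Agent.Lib.MP_436e1a_gt.H.Iface
import Pool.Agent.Lib.MP_436e1a_gt.E.Lam
import Pool.Agent.Lib.MP_436e1a_gt.J.Sph

/-! The dual spheres of the standard link form a hyperbolic pair. -/

open scoped Topology
open Set

namespace Pool.Agent.CSP

theorem rfb_S2 (b : Bool) : MapsTo (rfb b) S2 S2 := fun x hx =>
  mem_sphere_zero_iff_norm.2 ((norm_rfb b x).trans (mem_sphere_zero_iff_norm.1 hx))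

theorem rfb_B3 (b : Bool) : MapsTo (rfb b) B3 B3 := fun x hx =>
  mem_closedBall_zero_iff.2 ((norm_rfb b x).trans_le (mem_closedBall_zero_iff.1 hx))

theorem mem_cores {ι : Type} {M : Mfd} {h : ι → E 5 → M} {x : M} :
    x ∈ cores h ↔ ∃ k, ∃ u ∈ S2, core h k u = x := by
  simp only [cores, Sc, mem_iUnion, image_image, mem_image, core]

/-- In a simply connected manifold, if the two cores bound balls and have linking number `± 9`, then
`kap` around `i` is homotopic, in the complement of the cores, to a sphere `t` that is equivalent to a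
parallel of the other core.
Sketch. Choose `b` with `lk (core i) (par ∘ rfb b) = 9 ms` (`FL.lk_par`, `ms_cases`). Both third spheres
bound balls (`FL.ball_kap`; `FL.htp_sat` and `ext_of_htp`), so `htp_of_balls`, `fam_of_htp`, `if_gp` give a
chain `l` with `cnt l (some j) 1 = 0`. If `cnt l none 1` is even take `t = kap` and the constant homotopy.
Otherwise `if_step` with datum `(none, none, 1, 1)` gives `F` with stationary cores; `t = F none (1, ·)`,
and `δ.neg :: l` is a chain from `tri h t` (`if_inv`); `F none` misses the cores (`StepAt.only`). In both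
cases `chi = 0` by `Chain.lk`, `lk_fam0`, `FL.lk_kap_self`, `FL.lk_kap`, `FL.lk_par`, `lk_skew`; the group
is trivial. `if_thmU`. -/
theorem kap_par {S : Mfd} (A : Amb S) [SimplyConnectedSpace S] {h : Bool → E 5 → S} (hh : FLM h)
    (hb : ∀ k, ∃ D : E 3 → S, ContinuousOn D B3 ∧ EqOn D (core h k) S2) {i : Bool}
    (hl : (Ctx.triv S A).lk (core h i) (core h (!i)) = 9 ∨
      (Ctx.triv S A).lk (core h i) (core h (!i)) = -9) :
    ∃ b, ∀ᶠ ε in 𝓝[>] (0 : ℝ), ∃ G : ℝ × E 3 → S, ContinuousOn G (Icc 0 1 ×ˢ S2) ∧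
      (∀ p ∈ Icc (0 : ℝ) 1 ×ˢ S2, G p ∉ cores h) ∧ (∀ u ∈ S2, G (0, u) = h i (kap ε u)) ∧
      (Ctx.triv S A).Eqv (tri h fun u => G (1, u)) (tri h fun u => h (!i) (par ε (rfb b u))) := by
  have hF := hh.fl A
  have : SimplyConnectedSpace (Ctx.triv S A).Y := ‹SimplyConnectedSpace S›
  have ht : ∀ k, Tors (core h k) := fun k => (hb k).elim fun D hD => tors_of_ball hD.1 hD.2.symm
  obtain ⟨b, h9⟩ : ∃ b : Bool, (if b then - (Ctx.triv S A).lk (core h i) (core h (!i))
      else (Ctx.triv S A).lk (core h i) (core h (!i))) = 9 * ms := by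
    rcases hl with e | e <;> rcases ms_cases with m | m
    exacts [⟨false, by simp [e, m]⟩, ⟨true, by simp [e, m]⟩, ⟨true, by simp [e, m]⟩,
      ⟨false, by simp [e, m]⟩]
  refine ⟨b, ?_⟩
  filter_upwards [hF.link_tri sat_kap i, hF.link_tri (sat_par.rfb b) (!i), hF.ball_kap i,
    hF.htp_sat (sat_par.rfb b) (!i), hF.lk_kap_self (ht i), hF.lk_kap ht i, hF.lk_par ht (!i) b]
    with ε L0 L1 hB Hp k1 k2 k3
  obtain ⟨D, hD, eD⟩ := hb (!i)
  have cD := hD.comp (contDiff_rfb b).continuous.continuousOn (rfb_B3 b)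
  obtain ⟨l, hc, h0⟩ := Ctx.tri_chain L0 L1 (((htp_of_balls hB cD).trans (HtpOn.of_eq
    (cD.mono Metric.sphere_subset_closedBall) fun u hu => (eD (rfb_S2 b hu)).trans (by
      simp only [core, par, zero_smul, tube_zero]))).trans Hp.symm)
  have TL0 := L0.tl (by
    rintro (_ | k)
    exacts [tors_of_ball hB fun _ _ => rfl, ht k])
  have hk : ∀ k, (Ctx.triv S A).lk (core h k) (fun u => h (!i) (par ε (rfb b u))) =
      (Ctx.triv S A).lk (core h k) fun u => h i (kap ε u) := fun k => by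
    by_cases e : k = i
    · rw [e, k3.2 i (by simp), h9, k1]
    · rw [Bool.eq_not_of_ne e, k3.1]
      exact (k2 (!i) 1 (by simp)).symm
  have g1 : ∀ g : (Ctx.triv S A).G, g = 1 := fun _ => rfl
  by_cases hp : Even (cnt l none 1)
  · refine ⟨fun p => h i (kap ε p.2), (L0.continuousOn none).comp continuousOn_snd fun p hp => hp.2,
      fun p hp hm => ?_, fun _ _ => rfl,
      Ctx.tri_eqv hc TL0 (fun k _ => hk k) (fun g hg => (hg (g1 g)).elim) ?_⟩
    · obtain ⟨k, u, hu, e⟩ := mem_cores.1 hm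
      simpa using (L0.inj (some k) none u hu _ hp.2 e).1
    · rintro (_ | j) g hg
      exacts [hp, by rw [h0 j g hg]; exact Even.zero]
  · obtain ⟨F, t₀, hS, e0, e1⟩ := Ctx.if_step L0 ⟨none, none, 1, 1⟩ npole_mem (rfb_S2 true npole_mem)
      fun e => by
        have := congrArg (fun x : E 3 => x 2) e.2
        simp [npole, rfb, rf3] at this
        norm_num at this
    have St : (Ctx.triv S A).Step (tri h fun u => h i (kap ε u)) ⟨none, none, 1, 1⟩
        (tri h fun u => F none (1, u)) := by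
      refine ⟨F, Ctx.if_stepFam hS, Ctx.Eqv.of_eq ?_, Ctx.Eqv.of_eq ?_⟩
      · rintro (_ | k) x hx
        exacts [(e0 x hx).symm, (e1 (some k) (by simp) 0 (left_mem_Icc.2 zero_le_one) x hx).symm]
      · rintro (_ | k) x hx
        exacts [rfl, e1 (some k) (by simp) 1 (right_mem_Icc.2 zero_le_one) x hx]
    obtain ⟨TL1, k4⟩ := St.lk TL0
    refine ⟨F none, hS.fam.continuousOn none, fun p hp hm => ?_, e0,
      Ctx.tri_eqv (.cons (Ctx.if_inv St) hc) TL1 (fun k g => (hk k).trans ?_)
        (fun g hg => (hg (g1 g)).elim) ?_⟩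
    · obtain ⟨k, u, hu, e⟩ := mem_cores.1 hm
      simpa using hS.only p.1 hp.1 (some k) none u hu _ hp.2
        ((e1 (some k) (by simp) p.1 hp.1 u hu).trans e)
    · have := k4 (some k) none g (by simp)
      simp only [chi, List.map_cons, List.map_nil, List.sum_cons, List.sum_nil, reduceCtorEq,
        false_and, and_false, if_false, sub_zero, add_zero, mul_zero] at this
      exact this.symm
    · intro j g hg
      rw [← List.singleton_append, cnt_append]
      rcases j with _ | j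
      · rw [g1 g, show cnt [Dat.neg (⟨none, none, 1, 1⟩ : Dat (Option Bool) (Ctx.triv S A).G)]
          none 1 = 1 by simp [cnt, Dat.neg]]
        exact odd_one.add_odd (Nat.not_even_iff_odd.1 hp)
      · rw [h0 j g hg]
        simp [cnt, Dat.neg]

/-- In the surgered manifold the cable of the dual sphere `i` is homotopic, off the cores, to the image
of the meridian of the other dual sphere under a diffeomorphism that fixes the cores.
Sketch. `trf`, `Surg.eventually`; the homotopy is `θ ∘ G`; take the inverse of `ψ`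
(`exists_aut_triv`, `Aut.exists_symm`). -/
theorem sig_mer {S P : Mfd} (A : Amb S) (A' : Amb P) {h : Bool → E 5 → S} {k : Bool → E 5 → P}
    {θ : S → P} {θ' : P → S} (H : Surg h k θ θ') {i b : Bool}
    (e : ∀ᶠ ε in 𝓝[>] (0 : ℝ), ∃ G : ℝ × E 3 → S, ContinuousOn G (Icc 0 1 ×ˢ S2) ∧
      (∀ p ∈ Icc (0 : ℝ) 1 ×ˢ S2, G p ∉ cores h) ∧ (∀ u ∈ S2, G (0, u) = h i (kap ε u)) ∧
      (Ctx.triv S A).Eqv (tri h fun u => G (1, u)) (tri h fun u => h (!i) (par ε (rfb b u)))) :
    ∀ᶠ ε in 𝓝[>] (0 : ℝ), ∃ (G : ℝ × E 3 → P) (χ : (Ctx.triv P A').Aut),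
      ContinuousOn G (Icc 0 1 ×ˢ S2) ∧ (∀ p ∈ Icc (0 : ℝ) 1 ×ˢ S2, G p ∉ cores k) ∧
      (∀ u ∈ S2, G (0, u) = k i (sig ε u)) ∧
      (∀ u ∈ S2, G (1, u) = χ.up (k (!i) (mer ε (rfb b u)))) ∧
      ∀ j, ∀ u ∈ S2, χ.up (core k j u) = core k j u := by
  filter_upwards [e, H.eventually, (H.fh.fl A).link_tri (sat_par.rfb b) (!i)] with ε
    ⟨G, g1, g2, g3, g4⟩ hs L
  obtain ⟨ψ, h1, h2, h3, h4⟩ := trf (c := Ctx.triv S A) (H.fh.fl A) H (L.continuousOn none)
    (fun x hx => (hs (!i) _ (rfb_S2 b hx)).2.2.2.2.2.2.2) g4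
  obtain ⟨φ, hφ⟩ := exists_aut_triv A' h1 h2
  obtain ⟨χ, hχ, -⟩ := φ.exists_symm
  refine ⟨fun p => θ (G p), χ, H.emb.continuousOn.comp g1 g2, fun p hp => H.maps (g2 p hp),
    fun u hu => ?_, fun u hu => ?_, fun j u hu => ?_⟩
  · rw [← (hs i u hu).2.1, ← g3 u hu]
  · rw [← (hs (!i) _ (rfb_S2 b hu)).2.2.2.1]
    exact (hχ _).symm.trans (congrArg χ.up ((hφ _).trans (h4 u hu)))
  · exact (congrArg χ.up ((hφ _).trans ((h3 j).self_of_nhdsSet _ (inc_mem_Sc.2 hu))).symm).trans
      (hχ _)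

/-- the cores of the standard link bound balls and have linking number `± 9`: `σ ∘ inc`,
`σ ∘ kap 1` on `B3`; `FL.lk_kap_self` for the single framed sphere `σ` and the disjoint family
`kap ((1 - t) ε + t)` (`lk_fam0`), `lk_skew` -/
theorem std_lk {S : Mfd} (A : Amb S) {σ : E 5 → S} (hσ : Emb 1 σ univ) :
    (∀ k, ∃ D : E 3 → S, ContinuousOn D B3 ∧ EqOn D (core (fun s v => σ (std s v)) k) S2) ∧
    ∀ i, (Ctx.triv S A).lk (core (fun s v => σ (std s v)) i) (core (fun s v => σ (std s v)) (!i)) = 9 ∨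
      (Ctx.triv S A).lk (core (fun s v => σ (std s v)) i)
        (core (fun s v => σ (std s v)) (!i)) = -9 := by
  have cσ : Continuous σ := continuousOn_univ.1 hσ.continuousOn
  have cc : ∀ k, Continuous (core (fun s v => σ (std s v)) k) := fun k =>
    cσ.comp ((continuous_std k).comp contDiff_inc.continuous)
  have ht : ∀ k, Tors (core (fun s v => σ (std s v)) k) := fun k =>
    tors_of_ball (cc k).continuousOn fun _ _ => rfl
  have h0 : FLM fun _ : Unit => σ :=
    ⟨univ, isOpen_univ, subset_univ _, fun _ => hσ, fun _ _ _ _ _ _ _ => rfl⟩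
  obtain ⟨ε, k1, hε⟩ := (((h0.fl A).lk_kap_self (i := ()) (ht false)).and self_mem_nhdsWithin).exists
  have ck : Continuous fun p : ℝ × E 3 => σ (kap ((1 - p.1) * ε + p.1) p.2) :=
    cσ.comp (contDiff_kap.continuous.comp
      (f := fun p : ℝ × E 3 => ((1 - p.1) * ε + p.1, p.2)) (by fun_prop))
  have k2 := Ctx.lk_fam0 (c := Ctx.triv S A) (a := fun p => σ (inc p.2))
    ((cc false).comp continuous_snd).continuousOn ck.continuousOn (fun t ht x hx y hy e => by
      have := hσ.2.1 (mem_univ _) (mem_univ _) e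
      refine kap_not_mem (ε := (1 - t) * ε + t) (ne_of_gt ?_) hy (this ▸ inc_mem_Sc.2 hx)
      have : 0 < ε := hε
      rcases ht.1.eq_or_lt with e | e
      · simpa [← e]
      · nlinarith [ht.2]) (ht false)
    (tors_of_ball (ck.comp (Continuous.prodMk_right 0)).continuousOn fun _ _ => rfl)
  simp only [sub_self, zero_mul, zero_add, sub_zero, one_mul, add_zero] at k2
  have k3 : (Ctx.triv S A).lk (core (fun s v => σ (std s v)) false)
      (core (fun s v => σ (std s v)) true) = 9 * ms := by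
    refine Eq.trans ?_ (k2.trans k1)
    simp only [← Lam_inc]
    rfl
  refine ⟨fun k => ⟨_, (cc k).continuousOn, fun _ _ => rfl⟩, ?_⟩
  rintro (_ | _)
  · rcases ms_cases with m | m <;> simp [k3, m]
  · rw [Bool.not_true, Ctx.lk_skew (ht false) (ht true) fun x hx y hy e => by
      simpa using (((flm_std hσ).fl A).link.inj false true x hx y hy e).1]
    rcases ms_cases with m | m <;> simp [k3, m]

/-- Sketch. `std_lk`, `kap_par`, `sig_mer` for both `i`. `core k i ∘ dd` is homotopic to `k i ∘ sig ε`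
(`FL.htp_sat`, `sig_zero`), then to `χ ∘ meridian`, which bounds a ball (`FL.ball_mer`, `ext_of_htp`): so
the cores are torsion. For `i = true`: `3 lk (core false) (core true) = lk (core false) (sig)`
(`FL.lk_sig`) `= lk (core false) (χ ∘ mer)` (`lk_fam0`) `= ± 3` (`lk_aut`, `FL.lk_mer_self`). Take
`e false = core false`, `e true = core true ∘ rfb b'` (`lam_eq`, `lam_rf`); the group is trivial. -/
theorem hyp_P {S P : Mfd} {σ i₀ : E 5 → S} (hS : IsSph S σ i₀) {k : Bool → E 5 → P} {θ : S → P}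
    {θ' : P → S} (H : Surg (fun s v => σ (std s v)) k θ θ') (A' : Amb P) :
    ∃ e, (Ctx.triv P A').Hyp e := by
  obtain ⟨A⟩ := exists_amb S
  have := hS.sc
  obtain ⟨hb, hl⟩ := std_lk A hS.emb
  choose b hb' using fun i => kap_par A H.fh hb (hl i)
  have hE := fun i => sig_mer A A' H (hb' i)
  have hk := H.fk.fl A'
  have ht : ∀ i, Tors (core k i) := fun i => by
    obtain ⟨ε, ⟨G, χ, g1, -, g3, g4, -⟩, H1, hB⟩ := ((hE i).and ((hk.htp_sat sat_sig i).and
      (hk.ball_mer (!i) (b i)))).exists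
    obtain ⟨D, hD, eD⟩ := ext_of_htp (χ.cont.comp_continuousOn hB)
      ((HtpOn.symm ⟨G, g1, g3, g4⟩).trans H1)
    exact ⟨hk.link.continuousOn i, D, hD, fun x hx => (eD hx).trans (congrArg (k i) (sig_zero x))⟩
  obtain ⟨ε, ⟨G, χ, g1, g2, g3, g4, g5⟩, k1, k2, ts, L, hB⟩ := ((hE true).and
    ((hk.lk_sig ht true).and ((hk.lk_mer_self (ht false) (b true)).and ((hk.tors_sig (ht true)).and
      ((hk.link_tri (sat_mer.rfb (b true)) false).and (hk.ball_mer false (b true))))))).exists
  have dG : ∀ t ∈ Icc (0 : ℝ) 1, Dj (core k false) fun y => G (t, y) := fun t ht x hx y hy e =>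
    g2 (t, y) ⟨ht, hy⟩ (mem_cores.2 ⟨false, x, hx, e⟩)
  have t0 : Tors fun y => G (0, y) := ts.1.congr g3
  have k3 := Ctx.lk_fam0 (c := Ctx.triv P A') (a := fun p => core k false p.2)
    ((ht false).1.comp continuousOn_snd fun p hp => hp.2) g1 dG (ht false) t0
  have tm := tors_of_ball hB fun _ _ => rfl
  have dm : Dj (core k false) fun u => k false (mer ε (rfb (b true) u)) := fun x hx y hy e => by
    simpa using (L.inj (some false) none x hx y hy e).1
  have k4 := Ctx.lk_congr (c := Ctx.triv P A') (ht false) t0 (dG 0 (left_mem_Icc.2 zero_le_one))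
    (fun _ _ => rfl) fun y hy => (g3 y hy).symm
  have k5 := Ctx.lk_congr (c := Ctx.triv P A') ((ht false).map χ.cont) (tm.map χ.cont)
    (fun x hx y hy e => dm x hx y hy (χ.up_bij.1 e)) (fun x hx => (g5 false x hx).symm) g4
  have k6 : 3 * (Ctx.triv P A').lk (core k false) (core k true) =
      if b true then - (3 * ms) else 3 * ms :=
    (k1.1 false 1 (by simp)).symm.trans (k4.trans (k3.symm.trans (k5.trans
      ((Ctx.lk_aut (ht false) tm dm χ).trans k2))))
  have k7 := Ctx.lam_eq (c := Ctx.triv P A') (ht false) (ht true) (HtpOn.refl (ht _).1)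
    (HtpOn.refl (ht _).1) fun x hx y hy e => by simpa using (hk.link.inj false true x hx y hy e).1
  have k8 : (Ctx.triv P A').lk (core k false) (core k true) = 1 ∨
      (Ctx.triv P A').lk (core k false) (core k true) = -1 := by
    rcases ms_cases with m | m <;> split_ifs at k6 <;> omega
  rcases k8 with e | e
  · exact ⟨core k, ht, fun _ _ g hg => (hg rfl).elim, k7.trans ((congrArg Int.cast e).trans Int.cast_one)⟩
  · refine ⟨pair (core k false) fun u => core k true (rf3 u), ?_, fun _ _ g hg => (hg rfl).elim,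
      (Ctx.lam_rf (ht false) (ht true)).trans 
        ((congrArg Neg.neg (k7.trans (congrArg Int.cast e))).trans (by simp))⟩
    rintro (_ | _)
    exacts [ht false, (ht true).rfb true]

end Pool.Agent.CSP
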