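import Pool.Agent.Lib.MP_436e1a_gt.K.Prime
import Pool.Agent.Lib.MP_436e1a_gt.K.Final
import Pool.Agent.Lib.MP_436e1a_gt.K.HypP
import Pool.Agent.Lib.MP_436e1a_gt.K.Easy
import Pool.Agent.Lib.MP_436e1a_gt.C.Univ

/-! A prime closed oriented smooth 5-manifold. -/

open Set

namespace Pool.Agent.CSP

theorem main : ∃ P : Mfd,
    (∀ Y X : Mfd, IsSum P Y X → IsEmpty (X ≃ₜ Metric.sphere (0 : E 6) 1)) ∧
    ∀ M N X Y : Mfd, IsSum M N X → IsSum P Y X → (∃ Y', IsSum P Y' M) ∨ ∃ Y', IsSum P Y' N := by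
  obtain ⟨S, σ, i₀, hS⟩ := exists_sph
  obtain ⟨P, k, θ, θ', H⟩ := exists_surg (flm_std hS.emb)
  obtain ⟨AP⟩ := exists_amb P
  obtain ⟨e, he⟩ := hyp_P hS H AP
  haveI := hS.sc
  haveI := H.sc
  refine ⟨P, fun Y X h => ?_, fun M N X Y h h' => ?_⟩
  · obtain ⟨A⟩ := exists_amb X
    obtain ⟨e', he'⟩ := easy AP he (c := Ctx.triv X A) h
    exact nonunit A he'
  · obtain ⟨A⟩ := exists_amb X
    obtain ⟨i, a, hD⟩ := h.sumD
    have Am : ∀ s, Amb (pick M N s) := fun s => Classical.choice (exists_amb _)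
    choose C hC using fun s => exists_univ (pick M N s)
    obtain ⟨Cx, φ, j, B, hB⟩ := exists_sumC hD C
    obtain ⟨π, hπ⟩ := exists_prj hD hB
    obtain ⟨e', he'⟩ := easy AP he (c := ⟨X, A, Cx⟩) h'
    obtain ⟨s, e'', he''⟩ := hyp_piece (c := ⟨X, A, Cx⟩) Am hD hB hπ he'
    haveI : SimplyConnectedSpace (pc Am C s).Y := hC s
    obtain ⟨M', hM⟩ := hard hS H he''
    cases s
    · exact Or.inl ⟨M', hM⟩
    · exact Or.inr ⟨M', hM⟩

end Pool.Agent.CSP
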