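import Pool.Agent.Lib.MP_436e1a_gt.E.Lam
import Pool.Agent.Lib.MP_436e1a_gt.E.LkStep
import Pool.Agent.Lib.MP_436e1a_gt.I.EmbL
import Pool.Agent.Lib.MP_436e1a_gt.I.Frame
import Pool.Agent.Lib.MP_436e1a_gt.H.Iface

/-! A hyperbolic pair is represented by a framed link with standard integral linking numbers. -/

open Set

namespace Pool.Agent.CSP

open scoped Classical in
/-- the standard linking numbers -/
noncomputable def tg {G : Type} [Group G] (k : Bool) (g : G) : ℤ :=
  if g = 1 then (if k then -1 else 1) else 0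

namespace Ctx

variable {c : Ctx}

/-- the linking numbers of the pair `L` are standard -/
def Bc (c : Ctx) (L : Bool → E 3 → c.Y) : Prop :=
  ∀ k l (g : c.G), ¬ (k = l ∧ g = 1) → c.lk (L k) (fun y => g • L l y) = tg k g

open scoped Classical in
/-- the deviation from the standard linking numbers -/
noncomputable def normDev (c : Ctx) (L : Bool → E 3 → c.Y) (p : Bool × Bool × c.G) : ℤ :=
  if p.1 = p.2.1 ∧ p.2.2 = 1 then 0 else c.lk (L p.1) (fun y => p.2.2 • L p.2.1 y) - tg p.1 p.2.2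

theorem norm_skew {L : Bool → E 3 → c.Y} (h : c.TL L) (k l : Bool) (g : c.G) :
    c.normDev L (l, k, g⁻¹) = - c.normDev L (k, l, g) := by
  unfold normDev
  by_cases hne : k = l ∧ g = 1
  · rw [if_pos hne, if_pos ⟨hne.1.symm, inv_eq_one.2 hne.2⟩, neg_zero]
  · have hne' : ¬ (l = k ∧ g⁻¹ = 1) := fun e => hne ⟨e.1.symm, inv_eq_one.1 e.2⟩
    rw [if_neg hne, if_neg hne']
    have h1 := lk_smul (h.tors l) ((h.tors k).map (c.continuous_smul g⁻¹)) (h.dj l k g⁻¹ hne') g
    simp only [smul_inv_smul] at h1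
    have h2 := lk_skew (h.tors k) ((h.tors l).map (c.continuous_smul g)) (h.dj k l g hne)
    have h3 : tg l g⁻¹ = - tg k g := by
      unfold tg
      by_cases hg : g = 1
      · rw [if_pos hg, if_pos (inv_eq_one.2 hg)]
        cases k <;> cases l <;> simp_all
      · rw [if_neg hg, if_neg fun e => hg (inv_eq_one.1 e), neg_zero]
    show c.lk (L l) (fun y => g⁻¹ • L k y) - tg l g⁻¹ = -(c.lk (L k) (fun y => g • L l y) - tg k g)
    rw [← h1, h3]
    have h4 : c.lk (fun x => g • L l x) (fun y => L k y) = - c.lk (L k) fun y => g • L l y := h2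
    rw [h4]
    ring

theorem norm_sign {x : ℤ} (h : 3 ∣ x) (h0 : x ≠ 0) :
    ∃ ε : ℤˣ, (x - 3 * (ε : ℤ)).natAbs < x.natAbs := by
  rcases lt_or_gt_of_ne h0 with h1 | h1
  · exact ⟨-1, by simp only [Units.val_neg, Units.val_one]; omega⟩
  · exact ⟨1, by simp only [Units.val_one]; omega⟩

theorem norm_step [SimplyConnectedSpace c.Y] {L : Bool → E 3 → c.Y} (hL : c.Link L)
    (ht : ∀ k, Tors (L k)) (h3 : ∀ p, 3 ∣ c.normDev L p) {p₀ : Bool × Bool × c.G}
    (h0 : c.normDev L p₀ ≠ 0) : ∃ L', c.Link L' ∧ (∀ k, Tors (L' k)) ∧ (∀ p, 3 ∣ c.normDev L' p) ∧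
      (∀ p, (c.normDev L' p).natAbs ≤ (c.normDev L p).natAbs) ∧
      (c.normDev L' p₀).natAbs < (c.normDev L p₀).natAbs := by
  obtain ⟨k, l, g⟩ := p₀
  obtain ⟨ε, hε⟩ := norm_sign (h3 _) h0
  have hn : -npole ∈ S2 := by simpa using npole_mem
  obtain ⟨F, t₀, hF, e₁, e₂⟩ := if_step hL ⟨k, l, g, ε⟩ npole_mem hn (fun e => by
    have h1 := congrArg (fun x : E 3 => x 2) e.2
    simp only [npole, PiLp.neg_apply, Matrix.cons_val] at h1
    norm_num at h1)
  have hs : c.Step L ⟨k, l, g, ε⟩ (sl F 1) := by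
    refine ⟨F, if_stepFam hF, Eqv.of_eq fun i x hx => ?_, Eqv.refl _⟩
    by_cases hi : i = k
    · subst hi
      exact (e₁ x hx).symm
    · exact (e₂ i hi 0 (left_mem_Icc.2 zero_le_one) x hx).symm
  obtain ⟨hT, hk⟩ := hs.lk (hL.tl ht)
  have hD : ∀ i j (a : c.G), ¬ (i = j ∧ a = 1) → c.normDev (sl F 1) (i, j, a) =
      c.normDev L (i, j, a) - 3 * chi [(⟨k, l, g, ε⟩ : Dat Bool c.G)] i j a := by
    intro i j a hne
    unfold normDev
    rw [if_neg hne, if_neg hne, hk i j a hne]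
    ring
  have hD0 : ∀ (L : Bool → E 3 → c.Y) i j (a : c.G), i = j ∧ a = 1 → c.normDev L (i, j, a) = 0 :=
    fun L i j a e => if_pos e
  have hne : ¬ (k = l ∧ g = 1) := fun e => h0 (hD0 L k l g e)
  have hsi : ¬ (k = l ∧ l = k ∧ g = g⁻¹) := by
    rintro ⟨rfl, -, e⟩
    have h1 := norm_skew (hL.tl ht) k k g
    rw [← e] at h1
    exact h0 (by omega)
  have hlt : (c.normDev (sl F 1) (k, l, g)).natAbs < (c.normDev L (k, l, g)).natAbs := by
    rw [hD k l g hne]
    simpa only [chi, List.map_cons, List.map_nil, List.sum_cons, List.sum_nil, and_self, if_true,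
      if_neg hsi, sub_zero, add_zero] using hε
  refine ⟨sl F 1, (if_stepFam hF).link_one, hT.tors, ?_, ?_, hlt⟩
  · rintro ⟨i, j, a⟩
    by_cases e : i = j ∧ a = 1
    · rw [hD0 _ i j a e]
      exact dvd_zero 3
    · rw [hD i j a e]
      exact dvd_sub (h3 _) (dvd_mul_right 3 _)
  · rintro ⟨i, j, a⟩
    by_cases e : i = j ∧ a = 1
    · rw [hD0 _ i j a e, hD0 _ i j a e]
    by_cases h1 : k = i ∧ l = j ∧ g = a
    · obtain ⟨rfl, rfl, rfl⟩ := h1
      exact hlt.le
    by_cases h2 : k = j ∧ l = i ∧ g = a⁻¹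
    · obtain ⟨rfl, rfl, rfl⟩ := h2
      rw [← Int.natAbs_neg, ← norm_skew hT, ← Int.natAbs_neg (c.normDev L _),
        ← norm_skew (hL.tl ht)]
      exact hlt.le
    rw [hD i j a e]
    simp only [chi, List.map_cons, List.map_nil, List.sum_cons, List.sum_nil, if_neg h1, if_neg h2,
      sub_zero, add_zero, mul_zero, le_refl]

theorem norm_ind [SimplyConnectedSpace c.Y] (S : Finset (Bool × Bool × c.G)) (n : ℕ) :
    ∀ L : Bool → E 3 → c.Y, c.Link L → (∀ k, Tors (L k)) → (∀ p, 3 ∣ c.normDev L p) →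
      (∀ p, p ∉ S → c.normDev L p = 0) → ∑ p ∈ S, (c.normDev L p).natAbs = n →
      ∃ L, c.Link L ∧ (∀ k, Tors (L k)) ∧ c.Bc L := by
  induction n using Nat.strong_induction_on with
  | _ n ih =>
    intro L hL ht h3 hS hn
    by_cases h : ∀ p, c.normDev L p = 0
    · refine ⟨L, hL, ht, fun k l g hne => ?_⟩
      have h1 := h (k, l, g)
      unfold normDev at h1
      rw [if_neg hne] at h1
      exact sub_eq_zero.1 h1
    · obtain ⟨p₀, h0⟩ := not_forall.1 h
      obtain ⟨L', hL', ht', h3', hle, hlt⟩ := norm_step hL ht h3 h0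
      refine ih _ ?_ L' hL' ht' h3' (fun p hp => ?_) rfl
      · rw [← hn]
        exact Finset.sum_lt_sum (fun p _ => hle p) ⟨p₀, by_contra fun e => h0 (hS _ e), hlt⟩
      · have h1 := hle p
        rw [hS p hp] at h1
        omega

/-- Start with a link homotopic to `e` and correct the linking numbers by crossing changes. -/
theorem Hyp.exists_link [SimplyConnectedSpace c.Y] {e : Bool → E 3 → c.Y} (h : c.Hyp e) :
    ∃ L, c.Link L ∧ (∀ k, Tors (L k)) ∧ c.Bc L := by
  obtain ⟨L, hL, H⟩ := exists_link_htp (c := c) (a := e) fun i => (h.tors i).1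
  have ht : ∀ k, Tors (L k) := fun k => (h.tors k).htp (H k)
  have hT : ((⋃ k, ⋃ l, {g : c.G | (Dj (L k) fun y => g • L l y) ∧
      c.lk (L k) (fun y => g • L l y) ≠ 0}) ∪ {1}).Finite :=
    (finite_iUnion fun k => finite_iUnion fun l => lk_fin (ht k) (ht l)).union (finite_singleton 1)
  refine norm_ind ((finite_univ (α := Bool)).prod ((finite_univ (α := Bool)).prod hT)).toFinset _ L
    hL ht ?_ ?_ rfl
  · rintro ⟨k, l, g⟩
    unfold normDev
    split_ifs with hne
    · exact dvd_zero 3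
    have h1 := lam_eq (h.tors k) ((h.tors l).map (c.continuous_smul g)) (H k)
      ((H l).map (c.continuous_smul g)) (hL.dj hne)
    have h2 : c.lam (e k) (fun y => g • e l y) = (tg k g : ZMod 3) := by
      unfold tg
      by_cases hg : g = 1
      · subst hg
        simp only [one_smul, if_true]
        cases k <;> cases l
        · exact absurd ⟨rfl, rfl⟩ hne
        · simpa using h.one
        · have h3 := lam_skew (c := c) (h.tors false) (h.tors true)
          rw [h.one] at h3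
          simpa using h3
        · exact absurd ⟨rfl, rfl⟩ hne
      · rw [if_neg hg, h.zero k l g hg, Int.cast_zero]
    refine (ZMod.intCast_zmod_eq_zero_iff_dvd _ 3).1 ?_
    rw [Int.cast_sub, sub_eq_zero]
    exact h1.symm.trans h2
  · rintro ⟨k, l, g⟩ hp
    rw [Finite.mem_toFinset] at hp
    have hg : g ≠ 1 := fun e => hp ⟨trivial, trivial, Or.inr e⟩
    have hne : ¬ (k = l ∧ g = 1) := fun e => hg e.2
    have h1 : c.lk (L k) (fun y => g • L l y) = 0 := by_contra fun e =>
      hp ⟨trivial, trivial, Or.inl (mem_iUnion₂.2 ⟨k, l, hL.dj hne, e⟩)⟩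
    unfold normDev tg
    rw [if_neg hne, if_neg hg, h1, sub_zero]

theorem Hyp.exists_fl [SimplyConnectedSpace c.Y] {e : Bool → E 3 → c.Y} (h : c.Hyp e) :
    ∃ h : Bool → E 5 → c.Y, c.FL h ∧ (∀ k, Tors (core h k)) ∧ c.Bc (core h) := by
  obtain ⟨L, hL, ht, hB⟩ := h.exists_link
  obtain ⟨f, hf, he⟩ := hL.exists_fl fun i => (ht i).flat
  refine ⟨f, hf, fun k => (ht k).congr (he k), fun k l g hne => ?_⟩
  rw [← hB k l g hne]
  exact lk_congr (ht k) ((ht l).map (c.continuous_smul g)) (hL.dj hne) (he k)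
    fun y hy => congrArg (g • ·) (he l y hy)

end Ctx

end Pool.Agent.CSP
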