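import Pool.Agent.Lib.MP_436e1a_gt.K.Norm
import Pool.Agent.Lib.MP_436e1a_gt.I.SatLk
import Pool.Agent.Lib.MP_436e1a_gt.I.Push

/-! Chains from the cable of one component to the meridian of the other, and their parities. -/

open scoped Topology
open Set

namespace Pool.Agent.CSP

/-- the reflection that gives the meridian of `!k` the linking number of the cable of `k` -/
def bs (k : Bool) : Bool := decide (ms = if k then -1 else 1)

theorem bs_spec {G : Type} [Group G] (k : Bool) :
    (if bs k then - (3 * ms) else 3 * ms) = 3 * tg (!k) (1 : G) := by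
  rcases ms_cases with h | h <;> cases k <;> simp [bs, tg, h]

theorem pd_chi {ι G : Type} [Group G] (l : List (Dat ι G)) (i j : ι) (g : G) :
    chi l j i g⁻¹ = - chi l i j g := by
  rw [chi, chi, inv_inv]
  induction l with
  | nil => rfl
  | cons δ l ih =>
    rw [List.map_cons, List.map_cons, List.sum_cons, List.sum_cons, ih]
    ring

theorem pd_fin {ι G : Type} (l : List (Dat ι G)) (i : ι) : {g | Odd (cnt l i g)}.Finite := by
  classical
  refine (l.finite_toSet.image Dat.g).subset fun g hg => ?_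
  obtain ⟨δ, hδ, h⟩ := List.countP_pos_iff.1 (Odd.pos hg)
  exact ⟨δ, hδ, (of_decide_eq_true h).2.2⟩

namespace Ctx

variable {c : Ctx} {h : Bool → E 5 → c.Y}

/-- the link with the cable of `k` -/
noncomputable def cab (h : Bool → E 5 → c.Y) (k : Bool) (ε : ℝ) : Option Bool → E 3 → c.Y :=
  tri h fun u => h k (sig ε u)

/-- the link with the meridian of `!k` -/
noncomputable def mrd (h : Bool → E 5 → c.Y) (k : Bool) (ε : ℝ) : Option Bool → E 3 → c.Y :=
  tri h fun u => h (!k) (mer ε (rfb (bs k) u))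

/-- a chain from the cable to the meridian, even on the cores, odd on the third sphere exactly for the
involutions in `β` -/
def Pc (c : Ctx) (h : Bool → E 5 → c.Y) (k : Bool) (β : Set c.G) : Prop :=
  ∀ᶠ ε in 𝓝[>] (0 : ℝ), ∃ l, c.Chain (cab h k ε) l (mrd h k ε) ∧
    (∀ i (g : c.G), g = g⁻¹ → Even (cnt l (some i) g)) ∧
    ∀ g : c.G, g = g⁻¹ → (Odd (cnt l none g) ↔ g ∈ β)

/-- a chain exists: general position for a homotopy of the third sphere -/
theorem pc_init [SimplyConnectedSpace c.Y] (hh : c.FL h) (ht : ∀ k, Tors (core h k)) (k : Bool) :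
    ∃ β : Set c.G, β.Finite ∧ (∀ g ∈ β, g = g⁻¹) ∧ c.Pc h k β := by
  obtain ⟨δ₁, h₁, e₁⟩ := hh.eqv_tri sat_sig k
  obtain ⟨δ₂, h₂, e₂⟩ := hh.eqv_tri (sat_mer.rfb (bs k)) (!k)
  have ev : ∀ᶠ ε in 𝓝[>] (0 : ℝ), ε ∈ Ioo 0 δ₁ ∧ ε ∈ Ioo 0 δ₂ :=
    Filter.Eventually.and (Ioo_mem_nhdsGT h₁) (Ioo_mem_nhdsGT h₂)
  obtain ⟨ε₀, ⟨m₁, m₂⟩, L₀, L₁, ⟨-, D, hD, eD⟩, hB⟩ := (ev.and ((hh.link_tri sat_sig k).and
    ((hh.link_tri (sat_mer.rfb (bs k)) (!k)).and ((hh.tors_sig (ht k)).and
      (hh.ball_mer (!k) (bs k)))))).exists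
  obtain ⟨f, hf, ef⟩ := fam_of_htp (L₀.sm none) (L₁.sm none)
    ((HtpOn.of_eq (hD.mono Metric.sphere_subset_closedBall) eD).symm.trans (htp_of_balls hD hB))
  let F : Option Bool → ℝ × E 3 → c.Y := fun o => o.elim f fun i p => core h i p.2
  have hF : c.Fam F := fun o => by
    cases o with
    | none => exact hf
    | some i => exact (hh.link.sm i).const _
  have a₀ : ∀ o, ∀ x ∈ S2, sl F 0 o x = cab h k ε₀ o x := fun o x hx => by
    cases o with
    | none => exact (ef x hx).1
    | some i => rfl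
  have a₁ : ∀ o, ∀ x ∈ S2, sl F 1 o x = mrd h k ε₀ o x := fun o x hx => by
    cases o with
    | none => exact (ef x hx).2
    | some i => rfl
  obtain ⟨l, hl, hc⟩ := if_gp hF (L₀.congr (fun o => (hF o).slice ⟨le_rfl, zero_le_one⟩) a₀)
    (L₁.congr (fun o => (hF o).slice ⟨zero_le_one, le_rfl⟩) a₁)
  refine ⟨{g | g = g⁻¹ ∧ Odd (cnt l none g)}, (pd_fin l none).subset fun g hg => hg.2,
    fun g hg => hg.1, ev.mono fun ε hε => ⟨l, ?_, fun i g hg => ?_,
      fun g hg => ⟨fun ho => ⟨hg, ho⟩, fun ho => ho.2⟩⟩⟩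
  · exact Chain.eqv_left ((e₁ ε hε.1 ε₀ m₁).trans (Eqv.of_eq a₀).symm)
      (hl.eqv_right ((Eqv.of_eq a₁).trans (e₂ ε₀ m₂ ε hε.2)))
  · have hz : c.Zs (F (some i)) g = ∅ := eq_empty_of_forall_notMem fun p hp =>
      hp.2.2.2.1 (hh.link.inj i i _ hp.2.1 _ hp.2.2.1
        ((congrArg c.q hp.2.2.2.2).trans (c.q_smul _ _))).2
    have h2 := hc (some i) g hg (fun _ _ => hh.link.imm i)
      ⟨hz ▸ finite_empty, fun p hp => absurd (hz ▸ hp) (notMem_empty p)⟩
    rw [hz, ncard_empty] at h2
    exact ⟨0, by omega⟩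

/-- all linking numbers agree at the two ends, so `if_thmU` applies -/
theorem pc_final [SimplyConnectedSpace c.Y] (hh : c.FL h) (ht : ∀ k, Tors (core h k))
    (hb : c.Bc (core h)) {k : Bool} (hp : c.Pc h k ∅) :
    ∀ᶠ ε in 𝓝[>] (0 : ℝ), c.Eqv (cab h k ε) (mrd h k ε) := by
  filter_upwards [hp, hh.link_tri sat_sig k, hh.tors_sig (ht k), hh.lk_sig ht k,
    hh.lk_sig_self (ht k), hh.lk_mer ht (!k) (bs k), hh.lk_mer_self (ht (!k)) (bs k)]
    with ε ⟨l, hl, he, ho⟩ L₀ t₀ s₁ s₂ m₁ m₂
  have hT : c.TL (cab h k ε) := L₀.tl fun o => by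
    cases o with
    | none => exact t₀.1
    | some i => exact ht i
  have hlk := (hl.lk hT).2
  have htg : ∀ (i : Bool) (g : c.G), g ≠ 1 → tg i g = 0 := fun i g hg => if_neg hg
  have key : ∀ (i : Bool) (g : c.G), chi l (some i) none g = 0 := fun i g => by
    have h1 : c.lk (core h i) (fun u => g • h (!k) (mer ε (rfb (bs k) u))) =
        c.lk (core h i) (fun u => g • h k (sig ε u)) - 3 * chi l (some i) none g :=
      hlk (some i) none g fun h' => Option.some_ne_none i h'.1
    by_cases hg : g = 1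
    · subst hg
      by_cases hi : i = k
      · subst hi
        rw [m₁.1 i 1 fun h' => (Bool.eq_not_self i).1 h'.1] at h1
        simp only [one_smul] at h1
        omega
      · obtain rfl : i = !k := Bool.eq_not_of_ne hi
        rw [s₁.1 _ 1 fun h' => hi h'.1, hb _ k 1 fun h' => hi h'.1, ← mul_comm,
          mul_comm (tg _ _), ← bs_spec (G := c.G) k, ← m₂] at h1
        simp only [one_smul] at h1
        omega
    · rw [m₁.1 i g fun h' => hg h'.2, s₁.1 i g fun h' => hg h'.2, hb i k g fun h' => hg h'.2,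
        htg i g hg] at h1
      omega
  refine if_thmU hl (fun i j g hne => ?_) fun i g hg => ?_
  · have hne' : ¬ (i = j ∧ g = 1) := fun h' => hne ⟨h'.1, by rw [h'.2, inv_one]⟩
    have h1 := hlk i j g hne'
    match i, j with
    | some i, some j =>
      have h2 : c.lk (core h i) (fun u => g • core h j u) =
        c.lk (core h i) (fun u => g • core h j u) - 3 * chi l (some i) (some j) g := h1
      omega
    | some i, none => exact key i g
    | none, some j => rw [← neg_eq_zero, ← pd_chi, key]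
    | none, none =>
      have hg : g ≠ 1 := fun h' => hne' ⟨rfl, h'⟩
      have h2 : c.lk (fun u => h (!k) (mer ε (rfb (bs k) u)))
          (fun u => g • h (!k) (mer ε (rfb (bs k) u))) =
        c.lk (fun u => h k (sig ε u)) (fun u => g • h k (sig ε u)) - 3 * chi l none none g := h1
      rw [m₁.2 g hg, s₁.2 g hg, hb k k g fun h' => hg h'.2, htg k g hg] at h2
      omega
  · cases i with
    | none => exact Nat.not_odd_iff_even.1 fun h' => (ho g hg).1 h'
    | some i => exact he i g hg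

end Ctx

end Pool.Agent.CSP
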