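import Pool.Agent.Lib.MP_436e1a_gt.K.ParDef
import Pool.Agent.Lib.MP_436e1a_gt.I.Cable

/-! A self-crossing change of a core changes one parity. -/

open scoped Topology
open Set

namespace Pool.Agent.CSP

namespace Ctx

variable {c : Ctx} {h : Bool → E 5 → c.Y}

theorem parstep_rev {ι : Type} {A A' : ι → E 3 → c.Y} {l : List (Dat ι c.G)} (h : c.Chain A l A') :
    ∃ l', c.Chain A' l' A ∧ ∀ i g, cnt l' i g = cnt l i g := by
  induction h with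
  | nil e => exact ⟨[], .nil e.symm, fun _ _ => rfl⟩
  | @cons L L₁ L' δ l s _ ih =>
    obtain ⟨l', h1, h2⟩ := ih
    refine ⟨l' ++ [δ.neg], h1.append (.cons (if_inv s) (.nil (Eqv.refl _))), fun i g => ?_⟩
    rw [cnt_append, h2]
    simp only [cnt, List.countP_cons, List.countP_nil, Dat.neg, zero_add]

/-- replace the ends of a chain along chains -/
theorem chain_conj {ι : Type} {A A' B B' : ι → E 3 → c.Y} {l l₁ l₂ : List (Dat ι c.G)}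
    (h₁ : c.Chain A l₁ A') (h₂ : c.Chain B l₂ B') (h : c.Chain A l B) :
    ∃ l', c.Chain A' l' B' ∧ ∀ i g, cnt l' i g = cnt l₁ i g + cnt l i g + cnt l₂ i g := by
  obtain ⟨l', h3, h4⟩ := parstep_rev h₁
  exact ⟨_, (h3.append h).append h₂, fun i g => by rw [cnt_append, cnt_append, h4]⟩

theorem parstep_nd {f : ℝ × E 3 → c.Y} {g : c.G} (h : c.Zs f g = ∅) : c.Nd f g :=
  ⟨h ▸ finite_empty, fun p hp => (h ▸ hp : p ∈ (∅ : Set _)).elim⟩

open scoped Classical in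
/-- the chain of a family whose cores make one self-crossing -/
theorem parstep_chain {h' : Bool → E 5 → c.Y} {F : Bool → ℝ × E 3 → c.Y} {k : Bool} {g : c.G}
    (hg : g = g⁻¹) {t₀ : ℝ} (hF : c.StepAt F ⟨k, k, g, 1⟩ t₀ xA (-xA))
    (e₀ : ∀ i, ∀ x ∈ S2, F i (0, x) = core h i x) (e₁ : ∀ i, ∀ x ∈ S2, F i (1, x) = core h' i x)
    {s : ℝ × E 3 → c.Y} {s₀ s₁ : E 3 → c.Y} (hs : c.SmNear s (Icc 0 1 ×ˢ S2)) (hr : c.Reg s)
    (a₀ : ∀ x ∈ S2, s (0, x) = s₀ x) (a₁ : ∀ x ∈ S2, s (1, x) = s₁ x) (l₀ : c.Link (tri h s₀))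
    (l₁ : c.Link (tri h' s₁)) : ∃ l, c.Chain (tri h s₀) l (tri h' s₁) ∧ ∀ γ : c.G, γ = γ⁻¹ →
      (∀ i, cnt l (some i) γ = if i = k ∧ γ = g then 1 else 0) ∧
        (c.Nd s γ → 2 * cnt l none γ = (c.Zs s γ).ncard) := by
  let G : Option Bool → ℝ × E 3 → c.Y := fun o => o.elim s F
  have hG : c.Fam G := by
    rintro (_ | i)
    exacts [hs, hF.fam i]
  have b₀ : ∀ i, ∀ x ∈ S2, sl G 0 i x = tri h s₀ i x := by
    rintro (_ | i)
    exacts [a₀, e₀ i]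
  have b₁ : ∀ i, ∀ x ∈ S2, sl G 1 i x = tri h' s₁ i x := by
    rintro (_ | i)
    exacts [a₁, e₁ i]
  obtain ⟨l, h1, h2⟩ := if_gp hG (l₀.congr (fun i => (hG i).slice (by simp)) b₀)
    (l₁.congr (fun i => (hG i).slice (by simp)) b₁)
  refine ⟨l, (Chain.eqv_left (Eqv.of_eq b₀).symm h1).eqv_right (Eqv.of_eq b₁), fun γ hγ =>
    ⟨fun i => ?_, h2 none γ hγ hr⟩⟩
  have h3 := h2 (some i) γ hγ (hF.reg i)
  have z : c.Zs (F i) γ = ∅ → cnt l (some i) γ = 0 := fun e => by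
    have h4 : 2 * cnt l (some i) γ = (c.Zs (F i) γ).ncard := h3 (parstep_nd e)
    rw [e, ncard_empty] at h4
    omega
  by_cases e : i = k
  · subst e
    have h5 := zs_core hg hF.ht hF.cross fun t ht x hx y hy e =>
      (hF.only t ht i i x hx y hy e).imp And.right (And.imp_right (Or.imp
        (fun h => ⟨h.2.1, h.2.2.2⟩) fun h => ⟨h.2.1, h.2.2.2⟩))
    by_cases e : γ = g
    · subst e
      have h4 : 2 * cnt l (some i) γ = (c.Zs (F i) γ).ncard := h3 h5.1.1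
      rw [h5.1.2] at h4
      rw [if_pos ⟨rfl, rfl⟩]
      omega
    · rw [if_neg fun e' => e e'.2]
      exact z (h5.2 γ e)
  · rw [if_neg fun e' => e e'.1]
    refine z (eq_empty_of_forall_notMem fun p hp => ?_)
    rcases hF.only _ hp.1 i i _ hp.2.1 _ hp.2.2.1 ((congrArg c.q hp.2.2.2.2).trans (c.q_smul _ _))
      with e' | ⟨-, e' | e'⟩
    exacts [hp.2.2.2.1 e'.2, e e'.1, e e'.1]

theorem parstep_const {s : E 3 → c.Y} (l : c.Link (tri h s)) :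
    c.SmNear (fun p : ℝ × E 3 => s p.2) (Icc 0 1 ×ˢ S2) ∧ (c.Reg fun p => s p.2) ∧
      ∀ γ, c.Zs (fun p => s p.2) γ = ∅ :=
  ⟨(l.sm none).const _, fun _ _ => l.imm none, fun γ => eq_empty_of_forall_notMem fun _ hp =>
    hp.2.2.2.1 (l.inj none none _ hp.2.1 _ hp.2.2.1
      ((congrArg c.q hp.2.2.2.2).trans (c.q_smul γ _))).2⟩

theorem pc_step [SimplyConnectedSpace c.Y] (hh : c.FL h) (ht : ∀ k, Tors (core h k))
    (hb : c.Bc (core h)) {k : Bool} {β β' : Set c.G} (hp : c.Pc h k β) (hp' : c.Pc h (!k) β')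
    {g : c.G} (hg : g = g⁻¹) (hm : g ∈ β) :
    ∃ h' : Bool → E 5 → c.Y, c.FL h' ∧ (∀ k, Tors (core h' k)) ∧ c.Bc (core h') ∧
      c.Pc h' k (β \ {g}) ∧ c.Pc h' (!k) β' := by
  obtain ⟨F, t₀, hF, f₀, f₁⟩ := if_step hh.link ⟨k, k, g, 1⟩ xA_mem.1 xA_mem.2.1
    fun e => xA_mem.2.2 e.2
  obtain ⟨H, hH, H₀, H₁⟩ := exists_ffam (hh.sm k) (hh.sgn k) (hF.fam k) (hF.reg k) f₀
  obtain ⟨h', k₁, k₂⟩ : ∃ h' : Bool → E 5 → c.Y, (h' k = fun v => H (1, v)) ∧ h' (!k) = h (!k) :=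
    ⟨fun i => if i = k then fun v => H (1, v) else h i, if_pos rfl, if_neg (by simp)⟩
  have cs : ∀ i, i = k ∨ i = !k := fun i => by cases i <;> cases k <;> simp
  have o1 : (1 : ℝ) ∈ Icc (0 : ℝ) 1 := by simp
  have e₀ : ∀ i, ∀ x ∈ S2, F i (0, x) = core h i x := fun i x hx => by
    rcases cs i with rfl | rfl
    exacts [f₀ x hx, f₁ _ (by simp) 0 (by simp) x hx]
  have e₁ : ∀ i, ∀ x ∈ S2, F i (1, x) = core h' i x := fun i x hx => by
    rcases cs i with rfl | rfl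
    · rw [core, k₁]
      exact (H₁ 1 o1 x hx).symm
    · rw [core, k₂]
      exact f₁ _ (by simp) 1 o1 x hx
  have hh' : c.FL h' := by
    refine ⟨fun i => ?_, fun i => ?_, ?_⟩
    · rcases cs i with rfl | rfl
      exacts [k₁ ▸ hH.sm.slice o1, k₂ ▸ hh.sm _]
    · rcases cs i with rfl | rfl
      exacts [k₁ ▸ hH.sgn 1 o1, k₂ ▸ hh.sgn _]
    · rintro i j _ ⟨x, hx, rfl⟩ _ ⟨y, hy, rfl⟩ e
      have := (hF.link o1 hF.ht.2.ne').inj i j x hx y hy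
        ((congrArg c.q (e₁ i x hx)).trans (e.trans (congrArg c.q (e₁ j y hy)).symm))
      exact ⟨this.1, congrArg inc this.2⟩
  obtain ⟨T, hT⟩ := (hF.step (Eqv.of_eq e₀).symm (Eqv.of_eq e₁)).lk (hh.link.tl ht)
  have near : ∀ {φ : ℝ → E 3 → E 5}, Sat φ → ∀ᶠ ε in 𝓝[>] (0 : ℝ), ∀ u ∈ S2,
      H (0, φ ε u) = h k (φ ε u) := fun hφ => by
    obtain ⟨δ, hδ, h1⟩ := hφ.eventually H₀
    filter_upwards [Ioo_mem_nhdsGT hδ] with ε hε
    exact h1 ε (by rw [abs_of_pos hε.1]; exact hε.2)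
  refine ⟨h', hh', T.tors, fun i j γ n => ?_, ?_, ?_⟩
  · have e : (k = j ∧ k = i ∧ g = γ⁻¹) ↔ (k = i ∧ k = j ∧ g = γ) := by
      rw [← inv_inj (a := g), inv_inv, ← hg, and_left_comm]
    rw [hT i j γ n, hb i j γ n]
    simp only [chi, List.map_cons, List.map_nil, List.sum_cons, List.sum_nil]
    split_ifs with e₁ e₂ e₂
    · simp
    · exact (e₂ (e.2 e₁)).elim
    · exact (e₁ (e.1 e₂)).elim
    · simp
  · filter_upwards [hp, near sat_sig, hH.reg_sat sat_sig, hh.link_tri sat_sig k,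
      hh'.link_tri sat_sig k, hh.link_tri (sat_mer.rfb (bs k)) (!k),
      hh'.link_tri (sat_mer.rfb (bs k)) (!k), hH.zs_sig (hF.fam k) H₁ hg hF.ht hF.cross
        fun t ht x hx y hy e => (hF.only t ht k k x hx y hy e).imp And.right (And.imp_right (Or.imp
          (fun h => ⟨h.2.1, h.2.2.2⟩) fun h => ⟨h.2.1, h.2.2.2⟩))]
      with ε ⟨l, c₁, c₂, c₃⟩ n r p₁ p₂ p₃ p₄ z
    obtain ⟨l₁, d₁, d₂⟩ := parstep_chain hg hF e₀ e₁ r.1 r.2 n (fun x _ => by rw [k₁]) p₁ p₂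
    obtain ⟨s₁, s₂, s₃⟩ := parstep_const p₃
    obtain ⟨l₂, d₃, d₄⟩ := parstep_chain hg hF e₀ e₁ s₁ s₂ (fun _ _ => rfl) (fun x _ => by rw [k₂])
      p₃ p₄
    obtain ⟨l', d₅, d₆⟩ := chain_conj d₁ d₃ c₁
    refine ⟨l', d₅, fun i γ e => ?_, fun γ e => ?_⟩
    · rw [d₆, (d₂ γ e).1, (d₄ γ e).1, add_right_comm]
      exact (Even.add_self _).add (c₂ i γ e)
    · have h1 := (d₄ γ e).2 (parstep_nd (s₃ γ))
      have h2 := c₃ γ e
      rw [s₃, ncard_empty] at h1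
      rw [d₆]
      by_cases e' : γ = g
      · subst e'
        have h3 := (d₂ γ e).2 z.1.1
        rw [z.1.2] at h3
        have h4 := h2.2 hm
        simp only [mem_sdiff, mem_singleton_iff, not_true, and_false, iff_false, Nat.odd_iff] at h4 ⊢
        omega
      · have h3 := (d₂ γ e).2 (parstep_nd (z.2 γ e'))
        rw [z.2 γ e', ncard_empty] at h3
        rw [show cnt l₁ none γ + cnt l none γ + cnt l₂ none γ = cnt l none γ by omega, h2]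
        simp [e']
  · filter_upwards [hp', near (sat_mer.rfb (bs !k)), hH.reg_sat (sat_mer.rfb (bs !k)),
      hh.link_tri sat_sig (!k), hh'.link_tri sat_sig (!k), hh.link_tri (sat_mer.rfb (bs !k)) (!!k),
      hh'.link_tri (sat_mer.rfb (bs !k)) (!!k), hH.zs_mer (bs !k)]
      with ε ⟨l, c₁, c₂, c₃⟩ n r p₁ p₂ p₃ p₄ z
    obtain ⟨s₁, s₂, s₃⟩ := parstep_const p₁
    obtain ⟨l₁, d₁, d₂⟩ := parstep_chain hg hF e₀ e₁ s₁ s₂ (fun _ _ => rfl) (fun x _ => by rw [k₂])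
      p₁ p₂
    obtain ⟨l₂, d₃, d₄⟩ := parstep_chain hg hF e₀ e₁ r.1 r.2
      (fun x hx => by rw [Bool.not_not]; exact n x hx) (fun x _ => by rw [Bool.not_not, k₁]) p₃ p₄
    obtain ⟨l', d₅, d₆⟩ := chain_conj d₁ d₃ c₁
    refine ⟨l', d₅, fun i γ e => ?_, fun γ e => ?_⟩
    · rw [d₆, (d₂ γ e).1, (d₄ γ e).1, add_right_comm]
      exact (Even.add_self _).add (c₂ i γ e)
    · have h1 := (d₂ γ e).2 (parstep_nd (s₃ γ))
      have h3 := (d₄ γ e).2 (parstep_nd (z γ))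
      rw [s₃, ncard_empty] at h1
      rw [z, ncard_empty] at h3
      rw [d₆, show cnt l₁ none γ + cnt l none γ + cnt l₂ none γ = cnt l none γ by omega]
      exact c₃ γ e

theorem parstep_all [SimplyConnectedSpace c.Y] {k : Bool} {β β' : Set c.G} (hf : β.Finite)
    (hβ : ∀ g ∈ β, g = g⁻¹) (hh : c.FL h) (ht : ∀ k, Tors (core h k)) (hb : c.Bc (core h))
    (hp : c.Pc h k β) (hp' : c.Pc h (!k) β') :
    ∃ h' : Bool → E 5 → c.Y, c.FL h' ∧ (∀ k, Tors (core h' k)) ∧ c.Bc (core h') ∧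
      c.Pc h' k ∅ ∧ c.Pc h' (!k) β' := by
  induction β, hf using Set.Finite.induction_on generalizing h with
  | empty => exact ⟨h, hh, ht, hb, hp, hp'⟩
  | @insert g s n _ ih =>
    obtain ⟨h', a₁, a₂, a₃, a₄, a₅⟩ := pc_step hh ht hb hp hp' (hβ g (mem_insert _ _))
      (mem_insert _ _)
    rw [insert_sdiff_self_of_notMem n] at a₄
    exact ih (fun γ e => hβ γ (mem_insert_of_mem _ e)) a₁ a₂ a₃ a₄ a₅

theorem Hyp.exists_std [SimplyConnectedSpace c.Y] {e : Bool → E 3 → c.Y} (H : c.Hyp e) :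
    ∃ h : Bool → E 5 → c.Y, c.FL h ∧
      ∀ k, ∀ᶠ ε in 𝓝[>] (0 : ℝ), c.Eqv (cab h k ε) (mrd h k ε) := by
  obtain ⟨h, a₁, a₂, a₃⟩ := H.exists_fl
  obtain ⟨β, b₁, b₂, b₃⟩ := pc_init a₁ a₂ false
  obtain ⟨β', d₁, d₂, d₃⟩ := pc_init a₁ a₂ true
  obtain ⟨h₁, e₁, e₂, e₃, e₄, e₅⟩ := parstep_all (k := false) b₁ b₂ a₁ a₂ a₃ b₃ d₃
  obtain ⟨h₂, f₁, f₂, f₃, f₄, f₅⟩ := parstep_all (k := true) d₁ d₂ e₁ e₂ e₃ e₅ e₄
  refine ⟨h₂, f₁, fun k => ?_⟩
  cases k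
  exacts [pc_final f₁ f₂ f₃ f₅, pc_final f₁ f₂ f₃ f₄]

end Ctx

end Pool.Agent.CSP
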