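import Pool.Agent.Lib.MP_436e1a_gt.C.SumDef
import Pool.Agent.Lib.MP_436e1a_gt.D.Avoid
import Pool.Agent.Lib.MP_436e1a_gt.E.TorsL
import Pool.Agent.Lib.MP_436e1a_gt.B.Emb

/-! Squeezing a sphere onto a ray in the neck of a connected sum. -/

open scoped Manifold ContDiff Topology
open Set Metric

namespace Pool.Agent.CSP

variable {M : Bool → Mfd} {c : Ctx} {i : ∀ s, E 5 → M s} {a : ∀ s, M s → c.M}

/-- in the middle of the neck the point lies on the ray -/
def OnRay {X : Mfd} (i : ∀ s, E 5 → M s) (a : ∀ s, M s → X) (r : ℝ) (x : X) : Prop :=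
  ∀ s v, r⁻¹ ≤ ‖v‖ → ‖v‖ ≤ r → x = a s (i s v) → ∃ t : ℝ, 0 < t ∧ v = t • ray

/-- the point is not on the middle segment of the line spanned by `d` -/
def OffSeg {X : Mfd} (i : ∀ s, E 5 → M s) (a : ∀ s, M s → X) (r : ℝ) (d : E 5) (x : X) : Prop :=
  ∀ s (t : ℝ), r⁻¹ ≤ t → t ≤ r → x ≠ a s (i s (t • d))

theorem prep_inj (hD : SumD M c.M i a) (s : Bool) : Function.Injective (i s) := by
  obtain ⟨σ, h⟩ := hD.disc s
  exact injOn_univ.1 h.2.1

theorem prep_emb (hD : SumD M c.M i a) (s : Bool) : ∃ σ, Emb σ (fun v => a s (i s v)) {0}ᶜ := by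
  obtain ⟨σ, h⟩ := hD.disc s
  exact ⟨_, (hD.emb s).comp (h.mono (subset_univ _)) isOpen_compl_singleton isOpen_compl_singleton
    fun v hv e => hv (prep_inj hD s e)⟩

theorem prep_sw (hD : SumD M c.M i a) {v : E 5} (hv : v ≠ 0) :
    a true (i true v) = a false (i false (inv5 v)) :=
  (hD.glue true false (by decide) _ (fun e => hv (prep_inj hD _ e)) _
    fun e => inv5_ne_zero hv (prep_inj hD _ e)).2 ⟨v, hv, rfl, rfl⟩

theorem prep_ray : ‖ray‖ = 1 := by simp [ray, EuclideanSpace.norm_eq, Fin.sum_univ_five]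

theorem prep_ray_ne : ray ≠ 0 := fun h => by simpa [h] using prep_ray

/-- the cut-off function of the neck -/
noncomputable def prepChi (r : ℝ) : ℝ := max 0 (min 1 (min (12 * r - 3) (4 - r)))

/-- the direction of the squeezed vector -/
noncomputable def prepU (p : ℝ × E 5) : E 5 :=
  (1 - p.1 * prepChi ‖p.2‖) • nrm p.2 + (p.1 * prepChi ‖p.2‖) • ray

theorem prepChi_zero {r : ℝ} (h : ¬ (4⁻¹ ≤ r ∧ r ≤ 4)) : prepChi r = 0 := by
  refine max_eq_left (min_le_of_right_le ?_)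
  rcases not_and_or.1 h with h | h
  · exact min_le_of_left_le (by linarith [not_le.1 h])
  · exact min_le_of_right_le (by linarith [not_le.1 h])

theorem prepChi_one {r : ℝ} (h : 3⁻¹ ≤ r) (h' : r ≤ 3) : prepChi r = 1 := by
  rw [prepChi, min_eq_left (le_min (by linarith) (by linarith)), max_eq_right zero_le_one]

theorem prepU_zero {t : ℝ} (ht : t ∈ Icc (0 : ℝ) 1) {v : E 5} (hv : v ≠ 0) (h : prepU (t, v) = 0) :
    4⁻¹ ≤ ‖v‖ ∧ ‖v‖ ≤ 4 ∧ v = ‖v‖ • -ray := by
  have c0 : 0 ≤ prepChi ‖v‖ := le_max_left _ _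
  have c1 : prepChi ‖v‖ ≤ 1 := max_le zero_le_one (min_le_left _ _)
  have l0 : 0 ≤ t * prepChi ‖v‖ := mul_nonneg ht.1 c0
  have l1 : t * prepChi ‖v‖ ≤ 1 := mul_le_one₀ ht.2 c0 c1
  have e := eq_neg_of_add_eq_zero_left h
  have e1 := congrArg norm e
  simp only [norm_neg, norm_smul, norm_nrm hv, prep_ray, mul_one, Real.norm_of_nonneg l0,
    Real.norm_of_nonneg (sub_nonneg.2 l1)] at e1
  have e2 : t * prepChi ‖v‖ = 1 / 2 := by linarith
  have hz : 4⁻¹ ≤ ‖v‖ ∧ ‖v‖ ≤ 4 := by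
    by_contra hn
    rw [prepChi_zero hn] at e2
    norm_num at e2
  refine ⟨hz.1, hz.2, ?_⟩
  simp only [e2] at e
  have e3 : nrm v = -ray := smul_right_injective _ (show (1 / 2 : ℝ) ≠ 0 by norm_num) (by
    simp only [smul_neg, ← e]; norm_num)
  rw [← e3, norm_smul_nrm]

theorem prepU_cont {p : ℝ × E 5} (h : p.2 ≠ 0) : ContinuousAt prepU p := by
  have h1 : Continuous fun p : ℝ × E 5 => p.1 * prepChi ‖p.2‖ := by unfold prepChi; fun_prop
  have h2 : ContinuousAt (fun p : ℝ × E 5 => nrm p.2) p :=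
    (contDiffOn_nrm.continuousOn.continuousAt (isOpen_compl_singleton.mem_nhds h)).comp
      continuousAt_snd
  exact ((continuous_const.sub h1).continuousAt.smul h2).add (h1.continuousAt.smul continuousAt_const)

theorem prep_cpt (hD : SumD M c.M i a) (s : Bool) {r : ℝ} (hr : 0 < r) :
    IsCompact ((fun v => a s (i s v)) '' {v | r⁻¹ ≤ ‖v‖ ∧ ‖v‖ ≤ r}) := by
  obtain ⟨σ, h⟩ := prep_emb hD s
  refine IsCompact.image_of_continuousOn ((isCompact_closedBall (0 : E 5) r).of_isClosed_subset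
    ((isClosed_le continuous_const continuous_norm).inter
      (isClosed_le continuous_norm continuous_const)) fun v hv => mem_closedBall_zero_iff.2 hv.2)
    (h.continuousOn.mono fun v hv e => ?_)
  have := hv.1
  rw [mem_singleton_iff.1 e, norm_zero] at this
  exact (inv_pos.2 hr).not_ge this

/-- the segments are thin: `t ↦ ι (a s (i s (t • d)))` is smooth on `t > 0` -/
theorem thin_seg (hD : SumD M c.M i a) (r : ℝ) (hr : 0 < r) {d : E 5} (hd : d ≠ 0) :
    Thin 1 (c.ι '' {x | ¬ OffSeg i a r d x}) := by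
  refine (Thin.iUnion fun s : Bool => (thin_of_finrank (V := ℝ) (k := 1) (by simp) (Ioi 0)).image
    isOpen_Ioi subset_rfl (f := fun t : ℝ => c.ι (a s (i s (t • d)))) ?_).mono ?_
  · obtain ⟨σ, h⟩ := prep_emb hD s
    exact contMDiffOn_iff_contDiffOn.1 (c.A.ι_smooth.comp_contMDiffOn (h.1.comp
      (contDiff_id.smul contDiff_const).contMDiff.contMDiffOn fun t ht =>
        smul_ne_zero (ne_of_gt ht) hd))
  · rintro _ ⟨x, hx, rfl⟩
    simp only [OffSeg, mem_ofPred_eq, not_forall, not_not] at hx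
    obtain ⟨s, t, h1, -, rfl⟩ := hx
    exact mem_iUnion.2 ⟨s, t, (inv_pos.2 hr).trans_le h1, rfl⟩

/-- The squeeze. Sketch. Let `n v = a false (i false v)`, an open embedding of `{0}ᶜ`
(`Emb.comp`, `Emb.exists_inv`); `a true (i true v) = n (inv5 v)` by `glue`, so the conditions for `true`
follow from those for `false`. Let `χ` be continuous, `1` on `[1/3, 3]`, `0` off `(1/4, 4)`, and
`S (t, n v) = n (‖v‖ • nrm ((1 - t χ ‖v‖) • nrm v + t χ ‖v‖ • ray))` for `1/4 ≤ ‖v‖ ≤ 4`, `S (t, x) = x` for `x`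
outside the compact set `n '' {1/4 ≤ ‖v‖ ≤ 4}`. It is continuous on `Icc 0 1 ×ˢ {OffSeg 4 (-ray)}`
(on the open sets `n '' {0}ᶜ` and the complement of the compact set). `lift_htp`. -/
theorem exists_squeeze (hD : SumD M c.M i a) {b : E 3 → c.Y} (hb : ContinuousOn b S2)
    (ho : ∀ y ∈ S2, OffSeg i a 4 (-ray) (c.q (b y))) :
    ∃ b', HtpOn S2 b b' ∧ ∀ y ∈ S2, OnRay i a 3 (c.q (b' y)) := by
  classical
  obtain ⟨σ, hn⟩ := prep_emb hD false
  obtain ⟨k, hk, hk1, hk2⟩ := hn.exists_inv isOpen_compl_singleton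
  set n : E 5 → c.M := fun v => a false (i false v) with hn'
  have hW : IsOpen (n '' {0}ᶜ) := hn.isOpen_image isOpen_compl_singleton isOpen_compl_singleton subset_rfl
  let S : ℝ × c.M → c.M := fun p =>
    if p.2 ∈ n '' {0}ᶜ then n (‖k p.2‖ • nrm (prepU (p.1, k p.2))) else p.2
  have hid : ∀ (t : ℝ) x, t * prepChi ‖k x‖ = 0 → S (t, x) = x := fun t x h => by
    by_cases hx : x ∈ n '' {0}ᶜ
    · simp only [S, if_pos hx, prepU, h, sub_zero, one_smul, zero_smul, add_zero]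
      rw [nrm_of_norm (norm_nrm (hk2 x hx).1), norm_smul_nrm]
      exact (hk2 x hx).2
    · simp only [S, if_neg hx]
  have hu : ∀ t ∈ Icc (0 : ℝ) 1, ∀ x ∈ n '' {0}ᶜ, OffSeg i a 4 (-ray) x → prepU (t, k x) ≠ 0 := by
    intro t ht x hx ho h
    obtain ⟨h1, h2, h3⟩ := prepU_zero ht (hk2 x hx).1 h
    exact ho false _ h1 h2 (by rw [← h3]; exact (hk2 x hx).2.symm)
  have hsq : ∀ (t : ℝ) x, prepU (t, k x) ≠ 0 → ‖‖k x‖ • nrm (prepU (t, k x))‖ = ‖k x‖ :=
    fun t x h => by rw [norm_smul, norm_nrm h, norm_norm, mul_one]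
  have hS : ∀ t ∈ Icc (0 : ℝ) 1, ∀ x, OffSeg i a 4 (-ray) x → ContinuousAt S (t, x) := by
    intro t ht x ho
    by_cases hx : x ∈ n '' {0}ᶜ
    · have h0 : k x ≠ 0 := (hk2 x hx).1
      have c1 : ContinuousAt (fun p : ℝ × c.M => k p.2) (t, x) :=
        (hk.continuousOn.continuousAt (hW.mem_nhds hx)).comp continuousAt_snd
      have c2 : ContinuousAt (fun p : ℝ × c.M => prepU (p.1, k p.2)) (t, x) :=
        ContinuousAt.comp (f := fun p : ℝ × c.M => (p.1, k p.2)) (prepU_cont h0)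
          (continuousAt_fst.prodMk c1)
      have c3 : ContinuousAt (fun p : ℝ × c.M => ‖k p.2‖ • nrm (prepU (p.1, k p.2))) (t, x) :=
        c1.norm.smul (ContinuousAt.comp (f := fun p : ℝ × c.M => prepU (p.1, k p.2)) (x := (t, x))
          (contDiffOn_nrm.continuousOn.continuousAt
            (isOpen_compl_singleton.mem_nhds (hu t ht x hx ho))) c2)
      have c4 := ContinuousAt.comp (f := fun p : ℝ × c.M => ‖k p.2‖ • nrm (prepU (p.1, k p.2)))
        (x := (t, x))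
        (hn.continuousOn.continuousAt (isOpen_compl_singleton.mem_nhds
          (norm_ne_zero_iff.1 (by rw [hsq t x (hu t ht x hx ho)]; exact norm_ne_zero_iff.2 h0)))) c3
      refine c4.congr ?_
      filter_upwards [continuousAt_snd.preimage_mem_nhds (hW.mem_nhds hx)] with p hp
      exact (if_pos hp).symm
    · have hZ := (prep_cpt hD false (r := 4) (by norm_num)).isClosed.isOpen_compl
      refine continuousAt_snd.congr ?_
      filter_upwards [continuousAt_snd.preimage_mem_nhds (hZ.mem_nhds (x := x) fun ⟨v, hv, e⟩ =>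
        hx ⟨v, fun h => by
          have := hv.1
          rw [mem_singleton_iff.1 h, norm_zero] at this
          norm_num at this, e⟩)] with p hp
      by_cases hp' : p.2 ∈ n '' {0}ᶜ
      · exact (hid p.1 p.2 (by rw [prepChi_zero fun h => hp ⟨_, h, (hk2 _ hp').2⟩, mul_zero])).symm
      · exact (if_neg hp').symm
  obtain ⟨H, h1, h2, h3, -⟩ := c.lift_htp (h := fun p : ℝ × E 3 => S (p.1, c.q (b p.2))) (O := S2)
    (fun p hp => ContinuousAt.comp_continuousWithinAt (f := fun p : ℝ × E 3 => (p.1, c.q (b p.2)))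
      (hS p.1 hp.1 _ (ho _ hp.2)) (continuousOn_fst.prodMk (c.continuous_q.comp_continuousOn
        (hb.comp continuousOn_snd fun p hp => hp.2)) p hp)) hb
    fun y _ => (hid 0 _ (zero_mul _)).symm
  refine ⟨fun y => H (1, y), ⟨H, h1, h2, fun _ _ => rfl⟩, fun y hy => ?_⟩
  have key : ∀ v : E 5, 3⁻¹ ≤ ‖v‖ → ‖v‖ ≤ 3 → c.q (H (1, y)) = n v → v = ‖v‖ • ray := by
    intro v l1 l2 e
    have hv : v ≠ 0 := norm_pos_iff.1 (lt_of_lt_of_le (by norm_num) l1)
    rw [h3 (1, y) ⟨right_mem_Icc.2 zero_le_one, hy⟩] at e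
    by_cases hx : c.q (b y) ∈ n '' {0}ᶜ
    · have e1 := hsq 1 _ (hu 1 (right_mem_Icc.2 zero_le_one) _ hx (ho y hy))
      simp only [S, if_pos hx] at e
      have e2 := hn.2.1 (norm_ne_zero_iff.1 (by rw [e1]; exact norm_ne_zero_iff.2 (hk2 _ hx).1)) hv e
      rw [e2] at e1
      rw [← e1, prepU, ← e1, prepChi_one l1 l2] at e2
      simpa [nrm_of_norm prep_ray] using e2.symm
    · simp only [S, if_neg hx] at e
      exact (hx ⟨v, hv, e.symm⟩).elim
  intro s v l1 l2 e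
  have hv : 0 < ‖v‖ := lt_of_lt_of_le (by norm_num) l1
  cases s
  · exact ⟨_, hv, key v l1 l2 e⟩
  · have e1 := key (inv5 v) (by rw [norm_inv5]; exact inv_anti₀ hv l2)
      (by rw [norm_inv5]; exact inv_le_of_inv_le₀ (by norm_num) l1)
      (e.trans (prep_sw hD (norm_pos_iff.1 hv)))
    refine ⟨‖v‖, hv, ?_⟩
    have e2 := congrArg (fun w : E 5 => (‖v‖ ^ 2) • w) e1
    simp only [norm_inv5, inv5, smul_smul] at e2
    rw [mul_inv_cancel₀ (by positivity), one_smul] at e2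
    rw [e2, norm_smul, norm_smul, prep_ray]
    congr 1
    simp only [norm_inv, norm_pow, norm_norm, Real.norm_eq_abs, abs_mul, abs_pow, abs_norm, abs_inv,
      mul_one]

/-- Sketch. `avoid` moves `e` to `e'` with thin image, off the segment `OffSeg 3 ray`; a ball `D` for
`e'` (`Tors.htp`) is moved off the segment relative to `S2` (`3 + 1 ≤ 4`). Move `b` off the opposite
segment (`avoid_S2`), squeeze it to `b₂`, and apply `avoid` relative to the closed set
`C = {y ∈ S2 | q (b₂ y) ∈ Z 3}`, `Z r = ⋃ s, a s '' (i s '' {r⁻¹ ≤ ‖v‖ ≤ r})`, to miss the image of `e'` off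
`C`, with `ε` smaller than the distance in the ambient space from the compact set `Z 2` to the compact
complement of the open zone `{1/3 < ‖v‖ < 3}`. -/
theorem exists_prep (hD : SumD M c.M i a) {e b : E 3 → c.Y} (he : Tors e) (hb : ContinuousOn b S2) :
    ∃ e' D b' : E 3 → c.Y, HtpOn S2 e e' ∧ HtpOn S2 b b' ∧ ContinuousOn D B3 ∧
      (∀ x ∈ S2, D x = e' (dd x)) ∧ (∀ x ∈ B3, OffSeg i a 2 ray (c.q (D x))) ∧
      (∀ x ∈ S2, OffSeg i a 2 ray (c.q (e' x))) ∧ (∀ y ∈ S2, OnRay i a 2 (c.q (b' y))) ∧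
      ∀ x ∈ S2, ∀ y ∈ S2, c.q (e' x) ≠ c.q (b' y) := by
  have t3 := thin_seg hD 3 (by norm_num) prep_ray_ne
  have hoff : ∀ {r d} {x : c.M}, c.ι x ∉ c.ι '' {x | ¬ OffSeg i a r d x} → OffSeg i a r d x :=
    fun h => by_contra fun h' => h ⟨_, h', rfl⟩
  have hmono : ∀ x : c.M, OffSeg i a 3 ray x → OffSeg i a 2 ray x := fun x h s t l1 l2 =>
    h s t (le_trans (by norm_num) l1) (l2.trans (by norm_num))
  obtain ⟨e', hec, H1, te, oe⟩ := Ctx.avoid_S2 he.1 (t3.of_le (by norm_num))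
  obtain ⟨D₀, hD₀, eD₀⟩ := (he.htp H1).2
  obtain ⟨G, g1, -, g3, g4, -⟩ := Ctx.avoid (isCompact_closedBall (0 : E 3) 1)
    (isClosed_sphere (x := (0 : E 3)) (ε := 1)) hD₀ (ι := Unit) (k := fun _ => 3) (l := fun _ => 1)
    (T := fun _ => univ) (fun _ => thin_of_finrank (by simp) _) (fun _ => t3) (fun _ => le_rfl) one_pos
  have h11 : (1 : ℝ) ∈ Icc (0 : ℝ) 1 := right_mem_Icc.2 zero_le_one
  have eD : ∀ x ∈ S2, G (1, x) = e' (dd x) := fun x hx =>
    ((g3 1 h11 x (sphere_subset_closedBall hx)).1 hx).trans (eD₀ x hx)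
  obtain ⟨b₁, hb₁, H2, -, ob⟩ := Ctx.avoid_S2 hb
    ((thin_seg hD 4 (by norm_num) (neg_ne_zero.2 prep_ray_ne)).of_le (by norm_num))
  obtain ⟨b₂, H3, o2⟩ := exists_squeeze hD hb₁ fun y hy => hoff (ob y hy)
  let Z : ℝ → Set c.M := fun r => ⋃ s, (fun v => a s (i s v)) '' {v | r⁻¹ ≤ ‖v‖ ∧ ‖v‖ ≤ r}
  have hZ : ∀ r, 0 < r → IsCompact (Z r) := fun r hr => isCompact_iUnion fun s => prep_cpt hD s hr
  let Zo : Set c.M := ⋃ s, (fun v => a s (i s v)) '' {v | 3⁻¹ < ‖v‖ ∧ ‖v‖ < 3}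
  have hZo : IsOpen Zo := isOpen_iUnion fun s => by
    obtain ⟨σ, h⟩ := prep_emb hD s
    exact h.isOpen_image isOpen_compl_singleton ((isOpen_lt continuous_const continuous_norm).inter
      (isOpen_lt continuous_norm continuous_const)) fun v hv =>
        norm_pos_iff.1 (lt_trans (by norm_num) hv.1)
  obtain ⟨δ, hδ, hth⟩ := ((hZ 2 two_pos).image c.continuous_ι).exists_thickening_subset_open
    (hZo.isClosed_compl.isCompact.image c.continuous_ι).isClosed.isOpen_compl (by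
      rintro _ ⟨x, hx, rfl⟩ ⟨x', hx', e⟩
      obtain ⟨s, v, hv, rfl⟩ := mem_iUnion.1 hx
      exact hx' (c.ι_inj e ▸ mem_iUnion.2 ⟨s, v, ⟨lt_of_lt_of_le (by norm_num) hv.1,
        hv.2.trans_lt (by norm_num)⟩, rfl⟩))
  have hC : IsClosed (S2 ∩ (fun y => c.q (b₂ y)) ⁻¹' Z 3) :=
    (c.continuous_q.comp_continuousOn H3.right).preimage_isClosed_of_isClosed isClosed_sphere
      (hZ 3 three_pos).isClosed
  obtain ⟨K, k1, k2, k3, k4, -⟩ := Ctx.avoid (isCompact_sphere (0 : E 3) 1) hC H3.right (ι := Unit)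
    (k := fun _ => 2) (l := fun _ => 2) (T := fun _ => S2) (fun _ => thin_S2) (fun _ => te)
    (fun _ => le_rfl) hδ
  refine ⟨e', fun x => G (1, x), fun y => K (1, y), H1, (H2.trans H3).trans ⟨K, k1, k2, fun _ _ => rfl⟩,
    g1.comp (continuous_const.prodMk continuous_id).continuousOn fun x hx => ⟨h11, hx⟩, eD,
    fun x hx => hmono _ ?_, fun x hx => hmono _ (hoff (oe x hx)), fun y hy s v l1 l2 e => ?_,
    fun x hx y hy e => ?_⟩
  · by_cases hs : x ∈ S2
    · beta_reduce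
      rw [eD x hs]
      exact hoff (oe _ (dd_mem (ne_zero_of_S2 hs)))
    · exact hoff (g4 () x hx (mem_univ _) hs)
  · have hy' : y ∈ S2 ∩ (fun y => c.q (b₂ y)) ⁻¹' Z 3 := by
      refine ⟨hy, ?_⟩
      have m : c.ι (c.q (b₂ y)) ∈ thickening δ (c.ι '' Z 2) := mem_thickening_iff.2
        ⟨_, ⟨_, mem_iUnion.2 ⟨s, v, ⟨l1, l2⟩, e.symm⟩, rfl⟩, by
          rw [dist_comm, dist_eq_norm]; exact (k3 1 h11 y hy).2⟩
      obtain ⟨s', v', hv', e'⟩ := mem_iUnion.1 (not_not.1 fun h : c.q (b₂ y) ∉ Zo => hth m ⟨_, h, rfl⟩)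
      exact mem_iUnion.2 ⟨s', v', ⟨hv'.1.le, hv'.2.le⟩, e'⟩
    beta_reduce at e
    rw [(k3 1 h11 y hy).1 hy'] at e
    exact o2 y hy s v (le_trans (by norm_num) l1) (l2.trans (by norm_num)) e
  · by_cases hy' : y ∈ S2 ∩ (fun y => c.q (b₂ y)) ⁻¹' Z 3
    · beta_reduce at e
      rw [(k3 1 h11 y hy).1 hy'] at e
      obtain ⟨s, v, hv, e'⟩ := mem_iUnion.1 hy'.2
      obtain ⟨t, ht, rfl⟩ := o2 y hy s v hv.1 hv.2 e'.symm
      have hn : ‖t • ray‖ = t := by rw [norm_smul, prep_ray, mul_one, Real.norm_of_nonneg ht.le]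
      exact hoff (oe x hx) s t (hn ▸ hv.1) (hn ▸ hv.2) (e.trans e'.symm)
    · exact k4 () y hy hy hy' ⟨x, hx, congrArg c.ι e⟩

end Pool.Agent.CSP
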