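import Pool.Agent.Lib.MP_436e1a_gt.K.Split
import Pool.Agent.Lib.MP_436e1a_gt.C.SumCov
import Pool.Agent.Lib.MP_436e1a_gt.Alg.Wr

/-! A hyperbolic pair of a connected sum gives one in a summand. -/

open Set Monoid

namespace Pool.Agent.CSP

/-- Sketch. `grushko_fun` with `F s = (pc Am C s).form`, `form_add`,
`x s t w = π t (0, φ w⁻¹ • e s ·)` (`Tors.map`, `Prj.equi`), `T` = the union of the four sets of
`lam_split`; the additional terms vanish by `lam_null` (`Finset.sum_subset`). -/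
theorem hyp_piece {M : Bool → Mfd} {c : Ctx} {i : ∀ s, E 5 → M s} {a : ∀ s, M s → c.M}
    (Am : ∀ s, Amb (M s)) {C : ∀ s, Cov (M s)} [∀ s, PathConnectedSpace (C s).Y] {φ : FP C ≃* c.G}
    {j : ∀ s, E 5 → (C s).Y} {A : ∀ s, (C s).Y → c.Y} {π : ∀ s, ℝ × c.Y → (C s).Y}
    (hD : SumD M c.M i a) (hC : SumC i a C c.C φ j A) (hP : Prj i a C c.C φ j A π)
    {e : Bool → E 3 → c.Y} (H : c.Hyp e) : ∃ s e', (pc Am C s).Hyp e' := by
  classical
  let _ : ∀ s, MulAction (C s).G (pc Am C s).TS := fun s => (pc Am C s).instMulActionGTS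
  let x : Bool → ∀ t, FP C → (pc Am C t).TS := fun s t w =>
    ⟨fun u => π t (0, φ w⁻¹ • e s u), (H.tors s).map (ψ := fun y => π t (0, φ w⁻¹ • y))
      ((hP.cont t).comp (continuous_const.prodMk (c.continuous_smul _)))⟩
  choose T₀ h1 h2 h3 using fun s t => lam_split Am hD hC hP (H.tors s) (H.tors t)
  let T : Finset (Bool × FP C) := Finset.univ.biUnion fun p : Bool × Bool => T₀ p.1 p.2
  have hs : ∀ s t, T₀ s t ⊆ T := fun s t v hv =>
    Finset.mem_biUnion.2 ⟨(s, t), Finset.mem_univ _, hv⟩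
  have hT : ∀ v ∈ T, ¬ St v.1 v.2⁻¹ := fun v hv => by
    obtain ⟨p, -, hp⟩ := Finset.mem_biUnion.1 hv
    exact h1 _ _ v hp
  have key : ∀ s t (g : FP C), ∑ v ∈ T, (pc Am C v.1).lam (x s v.1 v.2).1 (x t v.1 (g⁻¹ * v.2)).1 =
      c.lam (e s) fun y => φ g • e t y := by
    intro s t g
    rw [h3 s t (φ g), ← Finset.sum_subset (hs s t)]
    · refine Finset.sum_congr rfl fun v _ => ?_
      change (pc Am C v.1).lam _ (fun y => π v.1 (0, φ (g⁻¹ * v.2)⁻¹ • e t y)) = _
      simp only [mul_inv_rev, inv_inv, map_mul, mul_smul]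
      rfl
    · intro v hv hv'
      obtain ⟨y₀, hy⟩ := h2 s t v.1 v.2 (hT v hv) hv'
      exact Ctx.lam_null hy (x t v.1 (g⁻¹ * v.2)).2
  obtain ⟨s, y, hy0, hy1⟩ := grushko_fun (p := 3) (H := fun s => (C s).G)
    (S := fun s => (pc Am C s).TS) (by norm_num) (fun s => (pc Am C s).form)
    (fun s => Ctx.form_add (c := pc Am C s)) x
    (fun s t w h => Subtype.ext (funext fun u => by
      change π t (0, φ (w * ofs t h)⁻¹ • e s u) = h⁻¹ • π t (0, φ w⁻¹ • e s u)
      rw [← hP.equi, mul_inv_rev, map_mul, mul_smul]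
      rfl)) T hT
    (fun s t w hw hn u => by
      obtain ⟨y₀, hy⟩ := h2 s s t w hw fun h => hn (hs s s h)
      exact Ctx.lam_null hy u.2)
    (fun s t g hg => (key s t g).trans (H.zero s t _ fun h => hg (φ.map_eq_one_iff.1 h)))
    (by
      have := key false true 1
      simp only [inv_one, one_mul, map_one, one_smul] at this
      exact this.trans H.one)
  exact ⟨s, fun t => (y t).1, fun t => (y t).2, fun t t' g hg => hy0 t t' g hg, hy1⟩

end Pool.Agent.CSP
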