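import Pool.Agent.Lib.MP_436e1a_gt.K.Prep
import Pool.Agent.Lib.MP_436e1a_gt.C.Prj
import Pool.Agent.Lib.MP_436e1a_gt.E.Lam

/-! The linking form of a connected sum is the sum of the forms of the pieces. -/

open Set Metric Monoid

namespace Pool.Agent.CSP

variable {M : Bool → Mfd} {c : Ctx} {i : ∀ s, E 5 → M s} {a : ∀ s, M s → c.M}
  {Am : ∀ s, Amb (M s)} {C : ∀ s, Cov (M s)} {φ : FP C ≃* c.G} {j : ∀ s, E 5 → (C s).Y}
  {A : ∀ s, (C s).Y → c.Y} {π : ∀ s, ℝ × c.Y → (C s).Y}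

/-- the context of a piece -/
abbrev pc (Am : ∀ s, Amb (M s)) (C : ∀ s, Cov (M s)) (s : Bool) : Ctx := ⟨M s, Am s, C s⟩

/-- the point `y` lies in the core of the piece at the vertex `(s, w)` -/
def InCore (i : ∀ s, E 5 → M s) (φ : FP C ≃* c.G) (A : ∀ s, (C s).Y → c.Y) (s : Bool) (w : FP C)
    (y : c.Y) : Prop :=
  ∃ z, (C s).q z ∉ i s '' ball 0 1 ∧ y = φ w • A s z

theorem spl_ne {s : Bool} {x : M s} {S : Set (E 5)} (h0 : (0 : E 5) ∈ S) (h : x ∉ i s '' S) :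
    x ≠ i s 0 := fun e => h ⟨0, h0, e.symm⟩

theorem spl_inj (hD : SumD M c.M i a) (s : Bool) : Function.Injective (i s) := by
  obtain ⟨σ, h⟩ := hD.disc s
  exact injOn_univ.1 h.2.1

theorem spl_norm (t : ℝ) : ‖t • ray‖ = |t| := by
  have : ‖ray‖ = 1 := by simp [ray, EuclideanSpace.norm_eq, Fin.sum_univ_five]
  rw [norm_smul, this, mul_one, Real.norm_eq_abs]

/-- A compact set meets only finitely many cores. Sketch. `exists_compact_lift` (in `pc Am C s`) for the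
compact set `(i s '' ball 0 1)ᶜ` gives `K₀`; `finite_meet` for `K` and `A s '' K₀`; if `y = φ w • A s z`,
`z = h • z₀`, then `w * of h` lies in a finite set `F`, and the normal `w` is `nf s` of it
(`nf_mul_of`, `nf_eq_self`). -/
theorem finite_core (Am : ∀ s, Amb (M s)) (hD : SumD M c.M i a) (hC : SumC i a C c.C φ j A)
    {K : Set c.Y} (hK : IsCompact K) :
    {v : Bool × FP C | ¬ St v.1 v.2⁻¹ ∧ ∃ y ∈ K, InCore i φ A v.1 v.2 y}.Finite := by
  have hball : ∀ s, IsOpen (i s '' ball 0 1) := fun s => by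
    obtain ⟨σ, h⟩ := hD.disc s
    exact h.isOpen_image isOpen_univ isOpen_ball (subset_univ _)
  choose K₀ hK₀ hq using fun s =>
    (pc Am C s).exists_compact_lift (Z := (i s '' ball 0 1)ᶜ) (hball s).isClosed_compl.isCompact
  have hne : ∀ s, ∀ z ∈ K₀ s, (C s).q z ≠ i s 0 := fun s z hz =>
    spl_ne (mem_ball_self one_pos) (show (C s).q z ∈ (i s '' ball 0 1)ᶜ from hq s ▸ ⟨z, hz, rfl⟩)
  have hF := fun s => c.finite_meet hK ((hK₀ s).image_of_continuousOn ((hC.cont s).mono (hne s)))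
  refine (finite_iUnion fun s => (hF s).image fun g => (s, nf s (φ.symm g))).subset ?_
  rintro ⟨s, w⟩ ⟨hw, y, hy, z, hz, rfl⟩
  obtain ⟨z₀, hz₀, e⟩ : (C s).q z ∈ (pc Am C s).q '' K₀ s := by rw [hq]; exact hz
  obtain ⟨h, rfl⟩ := (pc Am C s).q_eq_iff.1 e.symm
  refine mem_iUnion.2 ⟨s, φ (w * ofs s h), ⟨_, hy, _, ⟨z₀, hz₀, rfl⟩, ?_⟩, ?_⟩
  · rw [map_mul, mul_smul, ← hC.equi s h z₀ (hne s z₀ hz₀)]
  · simp only [MulEquiv.symm_apply_apply]
    rw [nf_mul_of, nf_eq_self hw]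

/-- A sphere that misses the core has a null-homotopic projection. Sketch. By `Prj.rest` the projection
`x` lies over `i s '' univ`; `v = (i s)⁻¹ ∘ q ∘ x` is continuous on `S2`, `x = h • j s ∘ v` by `lift_unique`;
contract `v`. -/
theorem null_of_miss (Am : ∀ s, Amb (M s)) (hD : SumD M c.M i a) (hC : SumC i a C c.C φ j A)
    (hP : Prj i a C c.C φ j A π) {e : E 3 → c.Y} (he : ContinuousOn e S2) {s : Bool} {w : FP C}
    (hm : ∀ x ∈ S2, ¬ InCore i φ A s w (e x)) :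
    ∃ y₀, HtpOn S2 (fun x => π s (0, φ w⁻¹ • e x)) fun _ => y₀ := by
  obtain ⟨σ, hi⟩ := hD.disc s
  obtain ⟨k, hk, hk1, -⟩ := hi.exists_inv isOpen_univ
  have hx : ContinuousOn (fun x => π s (0, φ w⁻¹ • e x)) S2 :=
    ((hP.cont s).comp (continuous_const.prodMk (c.continuous_smul _))).comp_continuousOn he
  have hr : ∀ x ∈ S2, ∃ (h : (C s).G) (v : E 5), π s (0, φ w⁻¹ • e x) = h • j s v := by
    intro x hx
    obtain ⟨h, v, -, h1, -⟩ := hP.rest s (φ w⁻¹ • e x) fun ⟨z, hz, e'⟩ => hm x hx ⟨z, hz, by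
      rw [← e', ← mul_smul, ← map_mul, mul_inv_cancel, map_one, one_smul]⟩
    exact ⟨h, _, h1 0⟩
  have hq : ∀ (h : (C s).G) v, (C s).q (h • j s v) = i s v := fun h v =>
    ((pc Am C s).q_smul h _).trans (hC.j_q s v)
  have hv : ContinuousOn (fun x => k ((C s).q (π s (0, φ w⁻¹ • e x)))) S2 := by
    refine hk.continuousOn.comp ((pc Am C s).continuous_q.comp_continuousOn hx) fun x hx => ?_
    obtain ⟨h, v, e'⟩ := hr x hx
    exact ⟨v, mem_univ _, by simp only [e', hq]⟩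
  obtain ⟨h, v₀, e₀⟩ := hr npole npole_mem
  have hj : Continuous fun v => h • j s v := ((pc Am C s).continuous_smul h).comp (hC.j_cont s)
  have key := (pc Am C s).lift_unique (isPreconnected_sphere (by
      rw [← Module.finrank_eq_rank]; simp) 0 1) hx (hj.comp_continuousOn hv)
    (fun x hx => by
      obtain ⟨h', v, e'⟩ := hr x hx
      change (C s).q _ = (C s).q (h • j s (k ((C s).q _)))
      rw [e', hq, hq, hk1 v (mem_univ _)]) npole_mem
    (by change _ = h • j s (k ((C s).q _)); rw [e₀, hq, hk1 v₀ (mem_univ _)])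
  refine ⟨h • j s 0, fun p => h • j s ((1 - p.1) • k ((C s).q (π s (0, φ w⁻¹ • e p.2)))),
    hj.comp_continuousOn ((continuous_const.sub continuous_fst).continuousOn.smul
      (hv.comp continuousOn_snd fun p hp => hp.2)), fun x hx => ?_, fun x _ => ?_⟩
  · simp only [sub_zero, one_smul]
    exact (key hx).symm
  · simp

/-- Coincidences of the two projections come from coincidences in the open core.
Sketch. Cases by `Prj.core` and `Prj.rest`. If `y'` is not in the core, `π (1, y') = h • j (t • ray)` with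
`1/2 < t ≤ 1` (`OnRay`; `col 1 v = ray` for `‖v‖ ≤ 1/2`); then `π (0, y)` lies over `i (t • ray)`, which
contradicts `OffSeg` in both cases for `y` (`col 0 v` is a nonnegative multiple of `v`, zero for
`‖v‖ ≤ 1/2`). If only `y` is not in the core, `π (0, y)` lies over the open ball. If both are, `z = z'`, and
`‖v‖ = 1` is excluded by `OnRay` and `OffSeg`. -/
theorem prj_coin (hD : SumD M c.M i a) (hC : SumC i a C c.C φ j A) (hP : Prj i a C c.C φ j A π)
    {s : Bool} {y y' : c.Y} (h1 : OffSeg i a 2 ray (c.q y)) (h2 : OnRay i a 2 (c.q y'))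
    (e : π s (0, y) = π s (1, y')) :
    ∃ z, (C s).q z ∉ i s '' closedBall 0 1 ∧ y = A s z ∧ y' = A s z := by
  have hq : ∀ (h : (C s).G) v, (C s).q (h • j s v) = i s v := fun h v =>
    ((C s).cov.map_smul h).trans (hC.j_q s v)
  have h0 : (0 : E 5) ∈ ball (0 : E 5) 1 := mem_ball_self one_pos
  have hc0 : ∀ v : E 5, col 0 v = max 0 (min 1 (2 * ‖v‖ - 1)) • v := fun v => by simp [col]
  have hl0 : ∀ v : E 5, 0 ≤ max 0 (min 1 (2 * ‖v‖ - 1)) := fun v => le_max_left _ _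
  have hl1 : ∀ v : E 5, max 0 (min 1 (2 * ‖v‖ - 1)) ≤ 1 := fun v =>
    max_le zero_le_one (min_le_left _ _)
  have hlz : ∀ v : E 5, ‖v‖ ≤ 1 / 2 → max 0 (min 1 (2 * ‖v‖ - 1)) = 0 := fun v hv =>
    max_eq_left (min_le_of_right_le (by linarith))
  by_cases c2 : ∃ z, (C s).q z ∉ i s '' ball 0 1 ∧ y' = A s z
  · obtain ⟨z', hz', rfl⟩ := c2
    rw [hP.core s 1 z' hz'] at e
    by_cases c1 : ∃ z, (C s).q z ∉ i s '' ball 0 1 ∧ y = A s z
    · obtain ⟨z, hz, rfl⟩ := c1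
      rw [hP.core s 0 z hz] at e
      subst e
      refine ⟨z, ?_, rfl, rfl⟩
      rintro ⟨v, hv, ev⟩
      have hv1 : ‖v‖ = 1 := le_antisymm (mem_closedBall_zero_iff.1 hv)
        (not_lt.1 fun h => hz ⟨v, mem_ball_zero_iff.2 h, ev⟩)
      have e1 : c.q (A s z) = a s (i s v) := by rw [ev]; exact hC.comm s z (spl_ne h0 hz)
      obtain ⟨t, ht, rfl⟩ := h2 s v (by rw [hv1]; norm_num) (by rw [hv1]; norm_num) e1
      rw [spl_norm, abs_of_pos ht] at hv1
      exact h1 s t (by rw [hv1]; norm_num) (by rw [hv1]; norm_num) e1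
    · obtain ⟨h, v, hv, e1, -⟩ := hP.rest s y c1
      refine (hz' ⟨col 0 v, mem_ball_zero_iff.2 ?_, by rw [← e, e1, hq]⟩).elim
      rw [hc0, norm_smul, Real.norm_of_nonneg (hl0 v)]
      nlinarith [hl0 v, hl1 v, norm_nonneg v]
  · exfalso
    obtain ⟨h', v', hv', e1, e2⟩ := hP.rest s y' c2
    obtain ⟨t, ht, ht1, e3⟩ : ∃ t : ℝ, 1 / 2 < t ∧ t ≤ 1 ∧ col 1 v' = t • ray := by
      by_cases hh : 1 / 2 < ‖v'‖
      · obtain ⟨t, ht, rfl⟩ := h2 s v' (by linarith) (by linarith) (e2 hh)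
        have l0 := hl0 (t • ray)
        have l1 := hl1 (t • ray)
        refine ⟨max 0 (min 1 (2 * ‖t • ray‖ - 1)) * t + (1 - max 0 (min 1 (2 * ‖t • ray‖ - 1))),
          ?_, ?_, by rw [col, smul_smul, mul_one, add_smul]⟩ <;>
        · rw [spl_norm, abs_of_pos ht] at hh hv'
          nlinarith
      · exact ⟨1, by norm_num, le_rfl, by rw [col, hlz v' (not_lt.1 hh)]; simp⟩
    have e4 : (C s).q (π s (0, y)) = i s (t • ray) := by rw [e, e1, hq, e3]
    by_cases c1 : ∃ z, (C s).q z ∉ i s '' ball 0 1 ∧ y = A s z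
    · obtain ⟨z, hz, rfl⟩ := c1
      rw [hP.core s 0 z hz] at e4
      exact h1 s t (by linarith) (by linarith) (by rw [← e4]; exact hC.comm s z (spl_ne h0 hz))
    · obtain ⟨h, v, hv, e5, e6⟩ := hP.rest s y c1
      rw [e5, hq, hc0] at e4
      have e7 := spl_inj hD s e4
      have hn : max 0 (min 1 (2 * ‖v‖ - 1)) ≠ 0 := fun h => by
        have := congrArg norm e7
        rw [h, zero_smul, norm_zero, spl_norm, abs_of_pos (by linarith)] at this
        linarith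
      have hh : 1 / 2 < ‖v‖ := not_le.1 fun h => hn (hlz v h)
      have e8 : v = ((max 0 (min 1 (2 * ‖v‖ - 1)))⁻¹ * t) • ray := by
        rw [mul_smul, ← e7, inv_smul_smul₀ hn]
      have hp : 0 ≤ (max 0 (min 1 (2 * ‖v‖ - 1)))⁻¹ * t :=
        mul_nonneg (inv_nonneg.2 (hl0 v)) (by linarith)
      have e9 : ‖v‖ = (max 0 (min 1 (2 * ‖v‖ - 1)))⁻¹ * t := by
        conv_lhs => rw [e8, spl_norm, abs_of_nonneg hp]
      rw [← e9] at e8
      exact h1 s ‖v‖ (by linarith) (by linarith) (by rw [← e8]; exact e6 hh)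

/-- Sketch. `inter_nat` with pieces `v = (s, w) ∈ T`, contexts `pc Am C s`, local maps
`z ↦ φ w • A s z` over `a s` on `{i s 0}ᶜ` (`SumC.same` for injectivity), and `N v` open with
`(x, y) ∈ N v ↔ D x ∈ U v ∧ b y ∈ U v` on `B3 × S2`, where `U v = φ w • A s '' {q z ∉ i s '' closedBall 0 1}` is
open (`SumC.isOpen_image`, `continuousOn_iff'`). Distinct normal vertices have disjoint `U v`
(`SumC.same`, `SumC.diff`, `nf_eq_nf`). A coincidence lies in a core (`SumC.cover_core`, normalise the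
vertex with `nf`), in the open core by `OnRay` and `OffSeg`. -/
theorem inter_split (Am : ∀ s, Amb (M s)) (hD : SumD M c.M i a) (hC : SumC i a C c.C φ j A)
    (hP : Prj i a C c.C φ j A π) {D b : E 3 → c.Y} (h : BS D b)
    (h1 : ∀ x ∈ B3, OffSeg i a 2 ray (c.q (D x))) (h2 : ∀ y ∈ S2, OnRay i a 2 (c.q (b y)))
    (T : Finset (Bool × FP C)) (hT : ∀ v ∈ T, ¬ St v.1 v.2⁻¹)
    (hm : ∀ s w, ¬ St s w⁻¹ → (∃ x ∈ B3, InCore i φ A s w (D x)) → (s, w) ∈ T) :
    c.inter D b = ∑ v ∈ T, (pc Am C v.1).inter (fun x => π v.1 (0, φ v.2⁻¹ • D x))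
      fun y => π v.1 (1, φ v.2⁻¹ • b y) := by
  have h0 : (0 : E 5) ∈ closedBall (0 : E 5) 1 := mem_closedBall_self zero_le_one
  have hsm : ∀ (w : FP C) (y : c.Y), φ w • φ w⁻¹ • y = y := fun w y => by
    rw [← mul_smul, ← map_mul, mul_inv_cancel, map_one, one_smul]
  have hsm' : ∀ (w : FP C) (y : c.Y), φ w⁻¹ • φ w • y = y := fun w y => by
    rw [← mul_smul, ← map_mul, inv_mul_cancel, map_one, one_smul]
  have hq : ∀ s (h : (C s).G) v, (C s).q (h • j s v) = i s v := fun s h v =>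
    ((C s).cov.map_smul h).trans (hC.j_q s v)
  let U : Bool × FP C → Set c.Y := fun v =>
    {y | φ v.2⁻¹ • y ∈ A v.1 '' {z | (C v.1).q z ∉ i v.1 '' closedBall 0 1}}
  have hU : ∀ v, IsOpen (U v) := fun v => by
    obtain ⟨σ, hi⟩ := hD.disc v.1
    refine (hC.isOpen_image hD ?_ fun z hz => spl_ne h0 hz).preimage (c.continuous_smul _)
    exact (((isCompact_closedBall 0 1).image_of_continuousOn
      (hi.continuousOn.mono (subset_univ _))).isClosed.isOpen_compl).preimage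
      (pc Am C v.1).continuous_q
  have hUd : ∀ v ∈ T, ∀ v' ∈ T, ∀ y, y ∈ U v → y ∈ U v' → v = v' := by
    rintro ⟨s, w⟩ hv ⟨t, w'⟩ hv' y ⟨z, hz, e⟩ ⟨z', hz', e'⟩
    have e1 : φ w • A s z = φ w' • A t z' := by rw [e, e', hsm, hsm]
    by_cases hst : s = t
    · subst hst
      obtain ⟨k, hk, -⟩ := hC.same hD (spl_ne h0 hz) (spl_ne h0 hz') e1
      exact congrArg _ ((nf_eq_self (hT _ hv)).symm.trans
        ((nf_eq_nf.2 ⟨k, hk⟩).trans (nf_eq_self (hT _ hv'))))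
    · obtain ⟨v, k, k', hv0, rfl, rfl, -⟩ := hC.diff hD hst (spl_ne h0 hz) (spl_ne h0 hz') e1
      have n1 : 1 < ‖v‖ := not_le.1 fun h => hz ⟨v, mem_closedBall_zero_iff.2 h, (hq _ _ _).symm⟩
      refine (hz' ⟨inv5 v, mem_closedBall_zero_iff.2 ?_, (hq _ _ _).symm⟩).elim
      rw [norm_inv5]
      exact inv_le_one_of_one_le₀ n1.le
  choose N₁ hN₁ eN₁ using fun v => continuousOn_iff'.1 h.ball (U v) (hU v)
  choose N₂ hN₂ eN₂ using fun v => continuousOn_iff'.1 h.sph (U v) (hU v)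
  have hN : ∀ v, ∀ x ∈ B3, ∀ y ∈ S2, (x, y) ∈ N₁ v ×ˢ N₂ v ↔ D x ∈ U v ∧ b y ∈ U v := by
    intro v x hx y hy
    have a1 := Set.ext_iff.1 (eN₁ v) x
    have a2 := Set.ext_iff.1 (eN₂ v) y
    simp only [mem_inter_iff, mem_preimage, hx, hy, and_true] at a1 a2
    rw [mem_prod, a1, a2]
  have hcoin : ∀ (v : Bool × FP C), ∀ x ∈ B3, ∀ y ∈ S2,
      π v.1 (0, φ v.2⁻¹ • D x) = π v.1 (1, φ v.2⁻¹ • b y) → D x ∈ U v ∧ b y ∈ U v ∧ D x = b y := by
    intro v x hx y hy e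
    obtain ⟨z, hz, e1, e2⟩ := prj_coin hD hC hP (by rw [c.q_smul]; exact h1 x hx)
      (by rw [c.q_smul]; exact h2 y hy) e
    exact ⟨⟨z, hz, e1.symm⟩, ⟨z, hz, e2.symm⟩, by rw [← hsm v.2 (D x), e1, ← e2, hsm]⟩
  have hcont : ∀ (v : Bool × FP C) (τ : ℝ), Continuous fun y => π v.1 (τ, φ v.2⁻¹ • y) :=
    fun v τ => (hP.cont v.1).comp (continuous_const.prodMk (c.continuous_smul _))
  have hin : ∀ (v : Bool × FP C) (τ : ℝ) y, y ∈ U v →
      (C v.1).q (π v.1 (τ, φ v.2⁻¹ • y)) ∈ ({i v.1 0}ᶜ : Set (M v.1)) ∧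
        y = φ v.2 • A v.1 (π v.1 (τ, φ v.2⁻¹ • y)) := by
    rintro v τ y ⟨z, hz, e⟩
    rw [← e, hP.core v.1 τ z fun h => hz (image_mono ball_subset_closedBall h), e, hsm]
    exact ⟨spl_ne h0 hz, rfl⟩
  refine inter_nat T (c' := fun v => pc Am C v.1) (A := fun v z => φ v.2 • A v.1 z)
    (φ := fun v => a v.1) (W := fun v => {i v.1 0}ᶜ) (fun v _ => ⟨isOpen_compl_singleton,
      hD.emb v.1, fun z hz z' hz' e => ?_, fun z hz => (c.q_smul _ _).trans (hC.comm v.1 z hz)⟩) h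
    (fun v _ => ⟨(hcont v 0).comp_continuousOn h.ball, (hcont v 1).comp_continuousOn h.sph,
      fun x hx y hy e => h.dj x hx y hy (hcoin v x (sphere_subset_closedBall hx) y hy e).2.2⟩)
    (N := fun v => N₁ v ×ˢ N₂ v) (fun v _ => (hN₁ v).prod (hN₂ v))
    (fun v hv v' hv' x hx y hy m m' => hUd v hv v' hv' _ ((hN v x hx y hy).1 m).1
      ((hN v' x hx y hy).1 m').1) (fun x hx y hy e => ?_)
    (fun v _ x hx y hy e => (hN v x hx y hy).2 ⟨(hcoin v x hx y hy e).1, (hcoin v x hx y hy e).2.1⟩)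
    fun v _ x hx y hy m => ?_
  · obtain ⟨k, hk, rfl⟩ := hC.same hD hz hz' e
    have : k = 1 := CoprodI.of_injective (M := fun s => (C s).G) v.1
      ((left_eq_mul.1 hk).trans (map_one _).symm)
    rw [this, one_smul]
  · obtain ⟨s, w, z, hz, e1⟩ := hC.cover_core hD (D x)
    obtain ⟨k, hk⟩ := (nf_eq_nf (i := s) (w := nf s w) (g := w)).1 (nf_eq_self (not_St_nf s w))
    have hz0 := spl_ne (mem_ball_self one_pos) hz
    have hqk : (C s).q (k • z) = (C s).q z := (C s).cov.map_smul k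
    have e2 : D x = φ (nf s w) • A s (k • z) := by
      rw [hC.equi s k z hz0, ← mul_smul, ← map_mul, ← hk, e1]
    have hz1 : (C s).q (k • z) ∉ i s '' ball 0 1 := by rwa [hqk]
    obtain ⟨z', hz', e3, -⟩ := prj_coin hD hC hP (s := s) (y := A s (k • z)) (y' := A s (k • z))
      (by rw [← c.q_smul (φ (nf s w)), ← e2]; exact h1 x hx)
      (by rw [← c.q_smul (φ (nf s w)), ← e2, e]; exact h2 y hy)
      (by rw [hP.core s 0 _ hz1, hP.core s 1 _ hz1])
    have m : D x ∈ U (s, nf s w) := ⟨z', hz', by rw [e2, hsm', e3]⟩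
    exact ⟨(s, nf s w), hm s _ (not_St_nf s w) ⟨x, hx, _, hz1, e2⟩,
      (hN _ x hx y hy).2 ⟨m, e ▸ m⟩⟩
  · obtain ⟨m1, m2⟩ := (hN v x hx y hy).1 m
    exact ⟨(hin v 0 _ m1).1, (hin v 1 _ m2).1, (hin v 0 _ m1).2, (hin v 1 _ m2).2⟩

/-- Sketch. `exists_prep`; `T₀` from `finite_core` for `D '' B3 ∪ e' '' S2`; `lam_eq`, `lk_eq`,
`inter_split` for `g • b'`; in a piece the projections of `e'` and `g • b'` are disjoint by `prj_coin`,
`π (1, ·)` is homotopic to `π (0, ·)`; `null_of_miss` and `HtpOn.trans` outside `T₀`. -/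
theorem lam_split (Am : ∀ s, Amb (M s)) (hD : SumD M c.M i a) (hC : SumC i a C c.C φ j A)
    (hP : Prj i a C c.C φ j A π) {e b : E 3 → c.Y} (he : Tors e) (hb : Tors b) :
    ∃ T₀ : Finset (Bool × FP C), (∀ v ∈ T₀, ¬ St v.1 v.2⁻¹) ∧
      (∀ s w, ¬ St s w⁻¹ → (s, w) ∉ T₀ →
        ∃ y₀, HtpOn S2 (fun x => π s (0, φ w⁻¹ • e x)) fun _ => y₀) ∧
      ∀ g : c.G, c.lam e (fun y => g • b y) =
        ∑ v ∈ T₀, (pc Am C v.1).lam (fun x => π v.1 (0, φ v.2⁻¹ • e x))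
          fun y => π v.1 (0, φ v.2⁻¹ • g • b y) := by
  obtain ⟨e', D, b', H1, H2, hDc, hDe, o1, o2, o3, hd⟩ := exists_prep hD he hb.1
  have hfin := finite_core Am hD hC (((isCompact_closedBall (0 : E 3) 1).image_of_continuousOn
    hDc).union ((isCompact_sphere (0 : E 3) 1).image_of_continuousOn H1.right))
  have hcont : ∀ s (w : FP C) (τ : ℝ), Continuous fun y => π s (τ, φ w⁻¹ • y) :=
    fun s w τ => (hP.cont s).comp (continuous_const.prodMk (c.continuous_smul _))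
  refine ⟨hfin.toFinset, fun v hv => (hfin.mem_toFinset.1 hv).1, fun s w hw hn => ?_, fun g => ?_⟩
  · obtain ⟨y₀, hy⟩ := null_of_miss Am hD hC hP H1.right (s := s) (w := w) fun x hx hc =>
      hn (hfin.mem_toFinset.2 ⟨hw, _, Or.inr ⟨x, hx, rfl⟩, hc⟩)
    exact ⟨y₀, (H1.map (hcont s w 0)).trans hy⟩
  · have hg := c.continuous_smul g
    have hdj : Dj e' fun y => g • b' y := fun x hx y hy h =>
      hd x hx y hy (by rw [h, c.q_smul])
    have he' := he.htp H1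
    have hb' := (hb.htp H2).map hg
    rw [Ctx.lam_eq he (hb.map hg) H1 (H2.map hg) hdj, Ctx.lk_eq he' hb' hdj hDc hDe,
      inter_split Am hD hC hP ⟨hDc, hb'.1, fun x hx y hy h => hdj _ (dd_mem (ne_zero_of_S2 hx)) y hy
        (by rw [← hDe x hx]; exact h)⟩ o1 (fun y hy => by rw [c.q_smul]; exact o3 y hy) hfin.toFinset
        (fun v hv => (hfin.mem_toFinset.1 hv).1) (fun s w hw ⟨x, hx, hc⟩ =>
          hfin.mem_toFinset.2 ⟨hw, _, Or.inl ⟨x, hx, rfl⟩, hc⟩), Int.cast_sum]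
    refine Finset.sum_congr rfl fun v _ => ?_
    have hdj' : Dj (fun x => π v.1 (0, φ v.2⁻¹ • e' x)) fun y => π v.1 (1, φ v.2⁻¹ • g • b' y) := by
      intro x hx y hy h
      obtain ⟨z, -, e1, e2⟩ := prj_coin hD hC hP (by rw [c.q_smul]; exact o2 x hx)
        (by rw [c.q_smul, c.q_smul]; exact o3 y hy) h
      exact hd x hx y hy (by rw [← c.q_smul (φ v.2⁻¹), e1, ← e2, c.q_smul, c.q_smul])
    have H3 : HtpOn S2 (fun y => π v.1 (0, φ v.2⁻¹ • g • b' y))
        fun y => π v.1 (1, φ v.2⁻¹ • g • b' y) :=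
      ⟨fun p => π v.1 (p.1, φ v.2⁻¹ • g • b' p.2), (hP.cont v.1).comp_continuousOn
        (continuousOn_fst.prodMk ((c.continuous_smul _).comp_continuousOn
          (hb'.1.comp continuousOn_snd fun p hp => hp.2))), fun _ _ => rfl, fun _ _ => rfl⟩
    rw [Ctx.lam_eq (c := pc Am C v.1) (he.map (hcont v.1 v.2 0)) ((hb.map hg).map (hcont v.1 v.2 0))
      (H1.map (hcont v.1 v.2 0)) (((H2.map hg).map (hcont v.1 v.2 0)).trans H3) hdj',
      Ctx.lk_eq (c := pc Am C v.1) (he'.map (hcont v.1 v.2 0)) (hb'.map (hcont v.1 v.2 1)) hdj'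
        ((hcont v.1 v.2 0).comp_continuousOn hDc) fun x hx => by
          simp only [Function.comp, hDe x hx]]
    rfl

end Pool.Agent.CSP
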